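import Mathlib

set_option autoImplicit false

namespace Pool.Agent.MP_345bc6_co

open scoped Classical

/-- The family of connected vertex sets of `G`: all `U` such that the subgraph induced on `U` is
connected (in particular `U` is nonempty, since Mathlib's `Connected` includes `Nonempty`). -/
noncomputable def connSets {V : Type*} [Fintype V] (G : SimpleGraph V) : Finset (Finset V) :=
  Finset.univ.filter (fun U => (G.induce (U : Set V)).Connected)

/-- The density `D(G)`: the mean order of a connected induced subgraph of `G`, divided by the
number of vertices of `G`. -/
noncomputable def density {V : Type*} [Fintype V] (G : SimpleGraph V) : ℝ :=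
  (∑ U ∈ connSets G, (U.card : ℝ)) / ((connSets G).card : ℝ) / (Fintype.card V : ℝ)

end Pool.Agent.MP_345bc6_co
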