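import Mathlib

set_option autoImplicit false

namespace Pool.Agent.MP_345bc6_co

open Finset

variable {V : Type*} [DecidableEq V]

/-- Cut-based connectedness of the subgraph induced on a finite set of vertices. -/
def Conn (G : SimpleGraph V) (U : Finset V) : Prop :=
  U.Nonempty ∧ ∀ S : Finset V, S ⊆ U → S.Nonempty → S ≠ U →
    ∃ a ∈ S, ∃ b ∈ U, b ∉ S ∧ G.Adj a b

theorem conn_iff (G : SimpleGraph V) (U : Finset V) :
    (G.induce (U : Set V)).Connected ↔ Conn G U := by
  classical
  constructor
  · intro h
    have hne : Nonempty ((U : Set V) : Type _) := h.nonempty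
    obtain ⟨⟨x, hx⟩⟩ := hne
    refine ⟨⟨x, hx⟩, fun S hSU hS hSne => ?_⟩
    obtain ⟨a, ha⟩ := hS
    have : ∃ b ∈ U, b ∉ S := by
      by_contra hcon
      push Not at hcon
      exact hSne (Finset.Subset.antisymm hSU hcon)
    obtain ⟨b, hbU, hbS⟩ := this
    obtain ⟨p⟩ := h.preconnected ⟨a, hSU ha⟩ ⟨b, hbU⟩
    obtain ⟨d, -, hd1, hd2⟩ := p.exists_boundary_dart {z | (z : V) ∈ S} ha hbS
    exact ⟨d.fst, hd1, d.snd, d.snd.2, hd2, by simpa using d.adj⟩
  · rintro ⟨⟨x, hx⟩, h⟩
    have : Nonempty ((U : Set V) : Type _) := ⟨⟨x, hx⟩⟩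
    refine { preconnected := ?_ }
    rintro ⟨a, ha⟩ ⟨b, hb⟩
    set S : Finset V := U.filter (fun z => ∃ hz : z ∈ (U : Set V),
      (G.induce (U : Set V)).Reachable ⟨a, ha⟩ ⟨z, hz⟩) with hS
    by_cases hSU : S = U
    · have : b ∈ S := by rw [hSU]; exact hb
      rw [hS, Finset.mem_filter] at this
      exact this.2.2
    · exfalso
      have haS : a ∈ S := by
        rw [hS, Finset.mem_filter]
        exact ⟨ha, ha, SimpleGraph.Reachable.refl _⟩
      obtain ⟨c, hc, d, hd, hdS, hcd⟩ := h S (Finset.filter_subset _ _) ⟨a, haS⟩ hSU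
      rw [hS, Finset.mem_filter] at hc
      obtain ⟨hcU, hcU', hr⟩ := hc
      apply hdS
      rw [hS, Finset.mem_filter]
      refine ⟨hd, hd, hr.trans ?_⟩
      apply SimpleGraph.Adj.reachable
      simpa using hcd

theorem Conn.singleton (G : SimpleGraph V) (v : V) : Conn G {v} := by
  refine ⟨⟨v, by simp⟩, fun S hS hne hne' => ?_⟩
  exfalso
  rcases Finset.subset_singleton_iff.1 hS with h | h
  · exact hne.ne_empty h
  · exact hne' h

theorem Conn.union {G : SimpleGraph V} {U W : Finset V} (hU : Conn G U) (hW : Conn G W)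
    {v : V} (hvU : v ∈ U) (hvW : v ∈ W) : Conn G (U ∪ W) := by
  refine ⟨⟨v, by simp [hvU]⟩, fun S hS hne hne' => ?_⟩
  by_contra hcon
  push Not at hcon
  have key : ∀ X : Finset V, Conn G X → X ⊆ U ∪ W → (X ⊆ S ∨ Disjoint X S) := by
    intro X hX hXs
    by_contra h
    push Not at h
    obtain ⟨h1, h2⟩ := h
    have hne1 : (S ∩ X).Nonempty := by
      rw [Finset.not_disjoint_iff] at h2
      obtain ⟨a, ha, hb⟩ := h2
      exact ⟨a, by simp [ha, hb]⟩
    have hne2 : S ∩ X ≠ X := by
      intro h
      exact h1 (by rw [← h]; exact Finset.inter_subset_left)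
    obtain ⟨a, ha, b, hb, hbS, hab⟩ := hX.2 (S ∩ X) Finset.inter_subset_right hne1 hne2
    refine hcon a (Finset.mem_inter.1 ha).1 b (hXs hb) ?_ hab
    intro hbS'
    exact hbS (Finset.mem_inter.2 ⟨hbS', hb⟩)
  rcases key U hU Finset.subset_union_left with h1 | h1
  · rcases key W hW Finset.subset_union_right with h2 | h2
    · exact hne' (Finset.Subset.antisymm hS (Finset.union_subset h1 h2))
    · exact Finset.disjoint_left.1 h2 hvW (h1 hvU)
  · rcases key W hW Finset.subset_union_right with h2 | h2
    · exact Finset.disjoint_left.1 h1 hvU (h2 hvW)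
    · obtain ⟨a, ha⟩ := hne
      rcases Finset.mem_union.1 (hS ha) with h | h
      · exact Finset.disjoint_left.1 h1 h ha
      · exact Finset.disjoint_left.1 h2 h ha

theorem Conn.insert_adj {G : SimpleGraph V} {U : Finset V} (hU : Conn G U) {u w : V}
    (hu : u ∈ U) (hadj : G.Adj u w) : Conn G (insert w U) := by
  have h2 : Conn G {u, w} := by
    refine ⟨⟨u, by simp⟩, fun S hS hne hne' => ?_⟩
    by_cases h1 : u ∈ S
    · by_cases h2 : w ∈ S
      · exfalso
        apply hne'
        apply Finset.Subset.antisymm hS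
        intro x hx
        simp only [Finset.mem_insert, Finset.mem_singleton] at hx
        rcases hx with rfl | rfl <;> assumption
      · exact ⟨u, h1, w, by simp, h2, hadj⟩
    · by_cases h2 : w ∈ S
      · exact ⟨w, h2, u, by simp, h1, hadj.symm⟩
      · exfalso
        obtain ⟨a, ha⟩ := hne
        have := hS ha
        simp only [Finset.mem_insert, Finset.mem_singleton] at this
        rcases this with rfl | rfl <;> contradiction
  have h3 := hU.union h2 hu (by simp : u ∈ ({u, w} : Finset V))
  have : insert w U = U ∪ {u, w} := by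
    ext x
    simp only [Finset.mem_insert, Finset.mem_union, Finset.mem_singleton]
    constructor
    · rintro (rfl | h)
      · simp
      · simp [h]
    · rintro (h | rfl | rfl)
      · simp [h]
      · simp [hu]
      · simp
  rw [this]; exact h3

/-- Splitting at a vertex. -/
theorem conn_split {G : SimpleGraph V} {v : V} {A B : Finset V}
    (hvA : v ∉ A) (hvB : v ∉ B) (hAB : Disjoint A B)
    (hno : ∀ a ∈ A, ∀ b ∈ B, ¬ G.Adj a b) :
    Conn G (insert v (A ∪ B)) ↔ Conn G (insert v A) ∧ Conn G (insert v B) := by
  constructor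
  · intro h
    have main : ∀ A B : Finset V, v ∉ A → v ∉ B → Disjoint A B →
        (∀ a ∈ A, ∀ b ∈ B, ¬ G.Adj a b) → Conn G (insert v (A ∪ B)) →
        Conn G (insert v A) := by
      intro A B hvA hvB hAB hno h
      refine ⟨⟨v, by simp⟩, fun S hS hne hne' => ?_⟩
      by_cases hvS : v ∈ S
      · obtain ⟨a, ha, b, hb, hbD, hab⟩ := h.2 (insert v A \ S)
          (by
            intro x hx
            rw [Finset.mem_sdiff, Finset.mem_insert] at hx
            rw [Finset.mem_insert, Finset.mem_union]
            tauto)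
          (by
            rw [Finset.nonempty_iff_ne_empty]
            intro hcon
            rw [Finset.sdiff_eq_empty_iff_subset] at hcon
            exact hne' (Finset.Subset.antisymm hS hcon))
          (by
            intro hcon
            have : v ∈ insert v A \ S := by rw [hcon]; simp
            exact (Finset.mem_sdiff.1 this).2 hvS)
        rw [Finset.mem_sdiff, Finset.mem_insert] at ha
        have haA : a ∈ A := by
          rcases ha.1 with rfl | h
          · exact absurd hvS ha.2
          · exact h
        rw [Finset.mem_insert, Finset.mem_union] at hb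
        have hbA : b ∈ insert v A := by
          rcases hb with rfl | h | h
          · simp
          · simp [h]
          · exact absurd hab (hno a haA b h)
        have hbS : b ∈ S := by
          by_contra hcon
          exact hbD (Finset.mem_sdiff.2 ⟨hbA, hcon⟩)
        exact ⟨b, hbS, a, by simp [haA], ha.2, hab.symm⟩
      · have hSA : S ⊆ A := by
          intro x hx
          rcases Finset.mem_insert.1 (hS hx) with rfl | h
          · exact absurd hx hvS
          · exact h
        obtain ⟨a, ha, b, hb, hbS, hab⟩ := h.2 S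
          (by
            intro x hx
            rw [Finset.mem_insert, Finset.mem_union]
            exact Or.inr (Or.inl (hSA hx)))
          hne
          (by
            intro hcon
            apply hvS
            rw [hcon]; simp)
        rw [Finset.mem_insert, Finset.mem_union] at hb
        rcases hb with rfl | hb | hb
        · exact ⟨a, ha, b, by simp, hbS, hab⟩
        · exact ⟨a, ha, b, by simp [hb], hbS, hab⟩
        · exact absurd hab (hno a (hSA ha) b hb)
    refine ⟨main A B hvA hvB hAB hno h, ?_⟩
    refine main B A hvB hvA hAB.symm (fun b hb a ha hab => hno a ha b hb hab.symm) ?_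
    rw [Finset.union_comm]; exact h
  · rintro ⟨h1, h2⟩
    have h3 := h1.union h2 (by simp : v ∈ _) (by simp : v ∈ _)
    have : insert v (A ∪ B) = insert v A ∪ insert v B := by
      ext x; simp only [Finset.mem_insert, Finset.mem_union]; tauto
    rw [this]; exact h3

/-- If the removal of `v` disconnects, we get a splitting. -/
theorem exists_split {G : SimpleGraph V} {U : Finset V} (hU : Conn G U) {v : V} (hv : v ∈ U)
    (hcard : 2 ≤ U.card) (hn : ¬ Conn G (U.erase v)) :
    ∃ A B : Finset V, A.Nonempty ∧ B.Nonempty ∧ v ∉ A ∧ v ∉ B ∧ Disjoint A B ∧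
      (∀ a ∈ A, ∀ b ∈ B, ¬ G.Adj a b) ∧ U = insert v (A ∪ B) := by
  have hne : (U.erase v).Nonempty := by
    rw [← Finset.card_pos, Finset.card_erase_of_mem hv]; omega
  unfold Conn at hn
  push Not at hn
  obtain ⟨S, hSU, hS, hSne, hno⟩ := hn hne
  refine ⟨S, U.erase v \ S, hS, ?_, ?_, ?_, Finset.disjoint_sdiff, ?_, ?_⟩
  · rw [Finset.nonempty_iff_ne_empty]
    intro hcon
    rw [Finset.sdiff_eq_empty_iff_subset] at hcon
    exact hSne (Finset.Subset.antisymm hSU hcon)
  · intro h; exact absurd (hSU h) (by simp)
  · simp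
  · intro a ha b hb
    rw [Finset.mem_sdiff] at hb
    exact hno a ha b hb.1 hb.2
  · rw [Finset.union_sdiff_of_subset hSU, Finset.insert_erase hv]

/-- In a connected set with at least two elements every vertex has a neighbour. -/
theorem Conn.exists_adj {G : SimpleGraph V} {U : Finset V} (hU : Conn G U) {v : V} (hv : v ∈ U)
    (hcard : 2 ≤ U.card) : ∃ u ∈ U, G.Adj v u := by
  obtain ⟨a, ha, b, hb, -, hab⟩ := hU.2 {v} (by simpa using hv) ⟨v, by simp⟩
    (by intro h; rw [← h] at hcard; simp at hcard)
  rw [Finset.mem_singleton] at ha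
  subst ha
  exact ⟨b, hb, hab⟩

end Pool.Agent.MP_345bc6_co
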