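import Mathlib
import Pool.Agent.Lib.MP_345bc6_co.Conn

set_option autoImplicit false

namespace Pool.Agent.MP_345bc6_co

open Finset
open scoped Classical

variable {V : Type*} (G : SimpleGraph V)

/-- Degree of `v` inside `U`. -/
noncomputable def dg (U : Finset V) (v : V) : ℕ := (U.filter (fun u => G.Adj v u)).card

/-- `v` is a non-cut vertex of the subgraph induced on `U`. -/
def NC (U : Finset V) (v : V) : Prop := Conn G (U.erase v)

/-- Vertex weights. -/
noncomputable def al (U : Finset V) (x : V → ℕ) (u : V) : ℕ :=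
  if x u = 0 then (if dg G U u ≠ 2 then 1 else 0) else (if NC G U u ∧ 2 ≤ dg G U u then 1 else 0)

/-- Pair weights. -/
noncomputable def be (U : Finset V) (x : V → ℕ) (w u : V) : ℕ :=
  if x w = 0 ∧ NC G U w ∧ G.Adj w u ∧ dg G U u + x u = 3 then 1 else 0

noncomputable def LHS (U : Finset V) (x : V → ℕ) : ℕ :=
  ∑ u ∈ U, al G U x u + ∑ w ∈ U, ∑ u ∈ U, be G U x w u

/-- number of free noncut vertices -/
noncomputable def fN (U : Finset V) (x : V → ℕ) : ℕ :=
  ∑ w ∈ U, if x w = 0 ∧ NC G U w then 1 else 0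

noncomputable def f (U : Finset V) : ℕ := ∑ w ∈ U, if NC G U w then 1 else 0

variable {G}

section split

variable {A B : Finset V} {v : V}

theorem dg_A (hAB : Disjoint A B) (hno : ∀ a ∈ A, ∀ b ∈ B, ¬ G.Adj a b) {u : V} (hu : u ∈ A) :
    dg G (insert v (A ∪ B)) u = dg G (insert v A) u := by
  unfold dg
  congr 1
  ext z
  simp only [Finset.mem_filter, Finset.mem_insert, Finset.mem_union]
  constructor
  · rintro ⟨h | h | h, h2⟩
    · exact ⟨Or.inl h, h2⟩
    · exact ⟨Or.inr h, h2⟩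
    · exact absurd h2 (hno u hu z h)
  · rintro ⟨h | h, h2⟩
    · exact ⟨Or.inl h, h2⟩
    · exact ⟨Or.inr (Or.inl h), h2⟩

theorem dg_insert_self (hvA : v ∉ A) : dg G (insert v A) v = dg G A v := by
  unfold dg
  congr 1
  ext z
  simp only [Finset.mem_filter, Finset.mem_insert]
  constructor
  · rintro ⟨rfl | h, h2⟩
    · exact absurd h2 (G.irrefl)
    · exact ⟨h, h2⟩
  · rintro ⟨h, h2⟩
    exact ⟨Or.inr h, h2⟩

theorem dg_union (hAB : Disjoint A B) : dg G (A ∪ B) v = dg G A v + dg G B v := by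
  unfold dg
  rw [Finset.filter_union, Finset.card_union_of_disjoint]
  exact Finset.disjoint_filter_filter hAB

theorem nc_A (hvA : v ∉ A) (hvB : v ∉ B) (hAB : Disjoint A B)
    (hno : ∀ a ∈ A, ∀ b ∈ B, ¬ G.Adj a b) (hB : Conn G (insert v B)) {u : V} (hu : u ∈ A) :
    NC G (insert v (A ∪ B)) u ↔ NC G (insert v A) u := by
  have huv : u ≠ v := by rintro rfl; exact hvA hu
  have huB : u ∉ B := Finset.disjoint_left.1 hAB hu
  have e1 : (insert v (A ∪ B)).erase u = insert v (A.erase u ∪ B) := by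
    ext z
    simp only [Finset.mem_erase, Finset.mem_insert, Finset.mem_union]
    constructor
    · rintro ⟨h1, h | h | h⟩
      · exact Or.inl h
      · exact Or.inr (Or.inl ⟨h1, h⟩)
      · exact Or.inr (Or.inr h)
    · rintro (h | ⟨h1, h⟩ | h)
      · exact ⟨by rw [h]; exact huv.symm, Or.inl h⟩
      · exact ⟨h1, Or.inr (Or.inl h)⟩
      · exact ⟨by rintro rfl; exact huB h, Or.inr (Or.inr h)⟩
  have e2 : (insert v A).erase u = insert v (A.erase u) := by
    rw [Finset.erase_insert_of_ne huv.symm]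
  unfold NC
  rw [e1, e2, conn_split]
  · constructor
    · exact fun h => h.1
    · exact fun h => ⟨h, hB⟩
  · intro h; exact hvA (Finset.mem_of_mem_erase h)
  · exact hvB
  · exact hAB.mono_left (Finset.erase_subset _ _)
  · intro a ha b hb
    exact hno a (Finset.mem_of_mem_erase ha) b hb

/-- external degrees after splitting -/
noncomputable def xs (G : SimpleGraph V) (x : V → ℕ) (v : V) (B : Finset V) : V → ℕ :=
  fun u => if u = v then x v + dg G B v else x u

theorem al_A (hvA : v ∉ A) (hvB : v ∉ B) (hAB : Disjoint A B)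
    (hno : ∀ a ∈ A, ∀ b ∈ B, ¬ G.Adj a b) (hB : Conn G (insert v B)) (x : V → ℕ)
    {u : V} (hu : u ∈ A) :
    al G (insert v (A ∪ B)) x u = al G (insert v A) (xs G x v B) u := by
  have huv : u ≠ v := by rintro rfl; exact hvA hu
  unfold al
  rw [dg_A hAB hno hu, nc_A hvA hvB hAB hno hB hu]
  simp [xs, huv]

theorem be_AA (hvA : v ∉ A) (hvB : v ∉ B) (hAB : Disjoint A B)
    (hno : ∀ a ∈ A, ∀ b ∈ B, ¬ G.Adj a b) (hB : Conn G (insert v B)) (x : V → ℕ)
    {w u : V} (hw : w ∈ A) (hu : u ∈ A) :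
    be G (insert v (A ∪ B)) x w u = be G (insert v A) (xs G x v B) w u := by
  have huv : u ≠ v := by rintro rfl; exact hvA hu
  have hwv : w ≠ v := by rintro rfl; exact hvA hw
  unfold be
  rw [dg_A hAB hno hu, nc_A hvA hvB hAB hno hB hw]
  simp [xs, huv, hwv]

theorem be_Av (hvA : v ∉ A) (hvB : v ∉ B) (hAB : Disjoint A B)
    (hno : ∀ a ∈ A, ∀ b ∈ B, ¬ G.Adj a b) (hB : Conn G (insert v B)) (x : V → ℕ)
    {w : V} (hw : w ∈ A) :
    be G (insert v (A ∪ B)) x w v = be G (insert v A) (xs G x v B) w v := by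
  have hwv : w ≠ v := by rintro rfl; exact hvA hw
  have h1 : dg G (insert v (A ∪ B)) v = dg G A v + dg G B v := by
    rw [dg_insert_self (by simp [hvA, hvB]), dg_union hAB]
  unfold be
  rw [nc_A hvA hvB hAB hno hB hw, h1, dg_insert_self hvA]
  have : dg G A v + dg G B v + x v = 3 ↔ dg G A v + (x v + dg G B v) = 3 := by omega
  simp [xs, hwv, this]

theorem be_AB (hno : ∀ a ∈ A, ∀ b ∈ B, ¬ G.Adj a b) (U : Finset V) (x : V → ℕ)
    {w u : V} (hw : w ∈ A) (hu : u ∈ B) : be G U x w u = 0 := by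
  unfold be
  rw [if_neg]
  rintro ⟨-, -, h, -⟩
  exact hno w hw u hu h

theorem be_v (U : Finset V) (x : V → ℕ) (hv : ¬ NC G U v) (u : V) : be G U x v u = 0 := by
  unfold be
  rw [if_neg]
  rintro ⟨-, h, -⟩
  exact hv h

theorem be_x (U : Finset V) (x : V → ℕ) (hv : x v ≠ 0) (u : V) : be G U x v u = 0 := by
  unfold be
  rw [if_neg]
  rintro ⟨h, -⟩
  exact hv h

theorem dg_pos (hvA : v ∉ A) (hA : A.Nonempty) (hc : Conn G (insert v A)) :
    1 ≤ dg G A v := by
  obtain ⟨u, hu, hadj⟩ := hc.exists_adj (v := v) (by simp)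
    (by rw [Finset.card_insert_of_notMem hvA]; have := hA.card_pos; omega)
  unfold dg
  rw [Nat.succ_le_iff, Finset.card_pos]
  refine ⟨u, ?_⟩
  rw [Finset.mem_filter]
  refine ⟨?_, hadj⟩
  rcases Finset.mem_insert.1 hu with rfl | h
  · exact absurd hadj (G.irrefl)
  · exact h

theorem xs_ne (hvB : v ∉ B) (hB : B.Nonempty) (hc : Conn G (insert v B)) (x : V → ℕ) :
    xs G x v B v ≠ 0 := by
  have := dg_pos hvB hB hc
  simp only [xs, if_true]
  omega

theorem sum_be_split (hvA : v ∉ A) (hvB : v ∉ B) (hAB : Disjoint A B)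
    (hA' : A.Nonempty) (hB' : B.Nonempty)
    (hno : ∀ a ∈ A, ∀ b ∈ B, ¬ G.Adj a b) (hA : Conn G (insert v A))
    (hB : Conn G (insert v B)) (hv : ¬ NC G (insert v (A ∪ B)) v) (x : V → ℕ) :
    ∑ w ∈ insert v (A ∪ B), ∑ u ∈ insert v (A ∪ B), be G (insert v (A ∪ B)) x w u
      = ∑ w ∈ insert v A, ∑ u ∈ insert v A, be G (insert v A) (xs G x v B) w u
        + ∑ w ∈ insert v B, ∑ u ∈ insert v B, be G (insert v B) (xs G x v A) w u := by
  have hvAB : v ∉ A ∪ B := by simp [hvA, hvB]
  have hno' : ∀ b ∈ B, ∀ a ∈ A, ¬ G.Adj b a := fun b hb a ha h => hno a ha b hb h.symm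
  have hcomm : insert v (A ∪ B) = insert v (B ∪ A) := by rw [Finset.union_comm]
  have main : ∀ A B : Finset V, v ∉ A → v ∉ B → Disjoint A B → B.Nonempty →
      (∀ a ∈ A, ∀ b ∈ B, ¬ G.Adj a b) → Conn G (insert v B) →
      ∑ w ∈ A, ∑ u ∈ insert v (A ∪ B), be G (insert v (A ∪ B)) x w u
        = ∑ w ∈ insert v A, ∑ u ∈ insert v A, be G (insert v A) (xs G x v B) w u := by
    intro A B hvA hvB hAB hB' hno hB
    have hvAB : v ∉ A ∪ B := by simp [hvA, hvB]
    rw [Finset.sum_insert hvA]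
    have h0 : ∑ u ∈ insert v A, be G (insert v A) (xs G x v B) v u = 0 :=
      Finset.sum_eq_zero (fun u _ => be_x _ _ (xs_ne hvB hB' hB x) u)
    rw [h0, zero_add]
    refine Finset.sum_congr rfl (fun w hw => ?_)
    rw [Finset.sum_insert hvAB, Finset.sum_union hAB, Finset.sum_insert hvA,
      be_Av hvA hvB hAB hno hB x hw,
      Finset.sum_congr rfl (fun u hu => be_AA hvA hvB hAB hno hB x hw hu),
      Finset.sum_eq_zero (fun u hu => be_AB hno _ x hw hu)]
    ring
  rw [Finset.sum_insert hvAB (f := fun w => ∑ u ∈ insert v (A ∪ B),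
      be G (insert v (A ∪ B)) x w u), Finset.sum_union hAB,
    Finset.sum_eq_zero (fun u _ => be_v _ x hv u), zero_add,
    main A B hvA hvB hAB hB' hno hB]
  congr 1
  rw [hcomm]
  exact main B A hvB hvA hAB.symm hA' hno' hA

theorem LHS_split (hvA : v ∉ A) (hvB : v ∉ B) (hAB : Disjoint A B)
    (hA' : A.Nonempty) (hB' : B.Nonempty)
    (hno : ∀ a ∈ A, ∀ b ∈ B, ¬ G.Adj a b) (hA : Conn G (insert v A))
    (hB : Conn G (insert v B)) (hv : ¬ NC G (insert v (A ∪ B)) v) (x : V → ℕ) :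
    LHS G (insert v (A ∪ B)) x + al G (insert v A) (xs G x v B) v
        + al G (insert v B) (xs G x v A) v
      = al G (insert v (A ∪ B)) x v + LHS G (insert v A) (xs G x v B)
        + LHS G (insert v B) (xs G x v A) := by
  have hvAB : v ∉ A ∪ B := by simp [hvA, hvB]
  have hno' : ∀ b ∈ B, ∀ a ∈ A, ¬ G.Adj b a := fun b hb a ha h => hno a ha b hb h.symm
  unfold LHS
  rw [sum_be_split hvA hvB hAB hA' hB' hno hA hB hv x]
  rw [Finset.sum_insert hvAB, Finset.sum_union hAB,
    Finset.sum_insert (f := al G (insert v A) (xs G x v B)) hvA,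
    Finset.sum_insert (f := al G (insert v B) (xs G x v A)) hvB,
    Finset.sum_congr rfl (fun u hu => al_A hvA hvB hAB hno hB x hu)]
  have h2 : ∑ u ∈ B, al G (insert v (A ∪ B)) x u = ∑ u ∈ B, al G (insert v B) (xs G x v A) u := by
    refine Finset.sum_congr rfl (fun u hu => ?_)
    rw [Finset.union_comm]
    exact al_A hvB hvA hAB.symm hno' hA x hu
  rw [h2]
  ring

theorem fN_split (hvA : v ∉ A) (hvB : v ∉ B) (hAB : Disjoint A B)
    (hA' : A.Nonempty) (hB' : B.Nonempty)
    (hno : ∀ a ∈ A, ∀ b ∈ B, ¬ G.Adj a b) (hA : Conn G (insert v A))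
    (hB : Conn G (insert v B)) (hv : ¬ NC G (insert v (A ∪ B)) v) (x : V → ℕ) :
    fN G (insert v (A ∪ B)) x = fN G (insert v A) (xs G x v B)
      + fN G (insert v B) (xs G x v A) := by
  have hvAB : v ∉ A ∪ B := by simp [hvA, hvB]
  have hno' : ∀ b ∈ B, ∀ a ∈ A, ¬ G.Adj b a := fun b hb a ha h => hno a ha b hb h.symm
  have main : ∀ A B : Finset V, v ∉ A → v ∉ B → Disjoint A B → B.Nonempty →
      (∀ a ∈ A, ∀ b ∈ B, ¬ G.Adj a b) → Conn G (insert v B) →
      (∑ w ∈ A, if x w = 0 ∧ NC G (insert v (A ∪ B)) w then 1 else 0)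
        = fN G (insert v A) (xs G x v B) := by
    intro A B hvA hvB hAB hB' hno hB
    unfold fN
    rw [Finset.sum_insert hvA, if_neg (fun h => xs_ne hvB hB' hB x h.1), zero_add]
    refine Finset.sum_congr rfl (fun w hw => ?_)
    have hwv : w ≠ v := by rintro rfl; exact hvA hw
    rw [nc_A hvA hvB hAB hno hB hw]
    simp [xs, hwv]
  rw [← main A B hvA hvB hAB hB' hno hB, ← main B A hvB hvA hAB.symm hA' hno' hA]
  rw [Finset.union_comm B A]
  unfold fN
  rw [Finset.sum_insert hvAB, Finset.sum_union hAB, if_neg (fun h => hv h.2), zero_add]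

theorem f_split (hvA : v ∉ A) (hvB : v ∉ B) (hAB : Disjoint A B)
    (hno : ∀ a ∈ A, ∀ b ∈ B, ¬ G.Adj a b) (hA : Conn G (insert v A))
    (hB : Conn G (insert v B)) (hv : ¬ NC G (insert v (A ∪ B)) v) :
    f G (insert v (A ∪ B)) + (if NC G (insert v A) v then 1 else 0)
      + (if NC G (insert v B) v then 1 else 0) = f G (insert v A) + f G (insert v B) := by
  have hvAB : v ∉ A ∪ B := by simp [hvA, hvB]
  have hno' : ∀ b ∈ B, ∀ a ∈ A, ¬ G.Adj b a := fun b hb a ha h => hno a ha b hb h.symm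
  have main : ∀ A B : Finset V, v ∉ A → v ∉ B → Disjoint A B →
      (∀ a ∈ A, ∀ b ∈ B, ¬ G.Adj a b) → Conn G (insert v B) →
      (∑ w ∈ A, if NC G (insert v (A ∪ B)) w then 1 else 0)
        + (if NC G (insert v A) v then 1 else 0) = f G (insert v A) := by
    intro A B hvA hvB hAB hno hB
    unfold f
    rw [Finset.sum_insert hvA, add_comm]
    congr 1
    refine Finset.sum_congr rfl (fun w hw => ?_)
    rw [nc_A hvA hvB hAB hno hB hw]
  rw [← main A B hvA hvB hAB hno hB, ← main B A hvB hvA hAB.symm hno' hA]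
  rw [Finset.union_comm B A]
  unfold f
  rw [Finset.sum_insert hvAB, Finset.sum_union hAB, if_neg hv]
  ring

/-- The weight inequality at the splitting vertex. -/
theorem al_v_le (hvA : v ∉ A) (hvB : v ∉ B) (hAB : Disjoint A B)
    (hA' : A.Nonempty) (hB' : B.Nonempty) (hA : Conn G (insert v A))
    (hB : Conn G (insert v B)) (hv : ¬ NC G (insert v (A ∪ B)) v) (x : V → ℕ) :
    al G (insert v (A ∪ B)) x v + 3 * ((if NC G (insert v A) v then 1 else 0)
      + (if NC G (insert v B) v then 1 else 0))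
      ≤ al G (insert v A) (xs G x v B) v + al G (insert v B) (xs G x v A) v + 6 := by
  have h1 : dg G (insert v (A ∪ B)) v = dg G A v + dg G B v := by
    rw [dg_insert_self (by simp [hvA, hvB]), dg_union hAB]
  have ha := dg_pos hvA hA' hA
  have hb := dg_pos hvB hB' hB
  have hxA := xs_ne hvB hB' hB x
  have hxB := xs_ne hvA hA' hA x
  have hle : al G (insert v (A ∪ B)) x v ≤ 1 := by
    unfold al; split_ifs <;> simp
  by_cases hn1 : NC G (insert v A) v
  · by_cases hn2 : NC G (insert v B) v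
    · unfold al
      rw [if_neg hxA, if_neg hxB, dg_insert_self hvA, dg_insert_self hvB, h1]
      simp only [hn1, hn2, hv, true_and, false_and, if_true, if_false]
      split_ifs <;> omega
    · simp only [hn1, hn2, if_true, if_false]
      omega
  · simp only [hn1, if_false]
    have : (if NC G (insert v B) v then 1 else 0) ≤ 1 := by split_ifs <;> simp
    omega

/-- The inequality for the two pieces implies the inequality for the whole. -/
theorem split_ineq (hvA : v ∉ A) (hvB : v ∉ B) (hAB : Disjoint A B)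
    (hA' : A.Nonempty) (hB' : B.Nonempty)
    (hno : ∀ a ∈ A, ∀ b ∈ B, ¬ G.Adj a b) (hA : Conn G (insert v A))
    (hB : Conn G (insert v B)) (hv : ¬ NC G (insert v (A ∪ B)) v) (x : V → ℕ)
    (h1 : LHS G (insert v A) (xs G x v B) + 6
      ≤ 2 * fN G (insert v A) (xs G x v B) + 3 * f G (insert v A))
    (h2 : LHS G (insert v B) (xs G x v A) + 6
      ≤ 2 * fN G (insert v B) (xs G x v A) + 3 * f G (insert v B)) :
    LHS G (insert v (A ∪ B)) x + 6
      ≤ 2 * fN G (insert v (A ∪ B)) x + 3 * f G (insert v (A ∪ B)) := by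
  have e1 := LHS_split hvA hvB hAB hA' hB' hno hA hB hv x
  have e2 := fN_split hvA hvB hAB hA' hB' hno hA hB hv x
  have e3 := f_split hvA hvB hAB hno hA hB hv
  have e4 := al_v_le hvA hvB hAB hA' hB' hA hB hv x
  omega

end split

end Pool.Agent.MP_345bc6_co
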