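import Mathlib
import Pool.Agent.Lib.MP_345bc6_co.Local

set_option autoImplicit false

namespace Pool.Agent.MP_345bc6_co

open Finset
open scoped Classical

variable {V : Type*} {G : SimpleGraph V}

theorem be_le_adj (U : Finset V) (x : V → ℕ) (w u : V) :
    be G U x w u ≤ if x w = 0 ∧ G.Adj w u then 1 else 0 := by
  unfold be
  split_ifs with h1 h2 h2
  · exact le_rfl
  · exact absurd ⟨h1.1, h1.2.2.1⟩ h2
  · exact Nat.zero_le _
  · exact le_rfl

theorem sum_be_le1 (U : Finset V) (x : V → ℕ) :
    ∑ w ∈ U, ∑ u ∈ U, be G U x w u ≤ ∑ w ∈ U.filter (fun w => x w = 0), dg G U w := by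
  rw [Finset.sum_filter]
  refine Finset.sum_le_sum (fun w _ => ?_)
  split_ifs with h
  · unfold dg
    rw [Finset.card_filter]
    refine Finset.sum_le_sum (fun u _ => ?_)
    refine (be_le_adj U x w u).trans ?_
    simp [h]
  · refine le_of_eq (Finset.sum_eq_zero (fun u _ => be_x U x h u))

theorem sum_be_le2 (U : Finset V) (x : V → ℕ) :
    ∑ w ∈ U, ∑ u ∈ U, be G U x w u ≤
      ∑ u ∈ U.filter (fun u => dg G U u + x u = 3),
        (U.filter (fun w => x w = 0 ∧ G.Adj u w)).card := by
  rw [Finset.sum_comm, Finset.sum_filter]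
  refine Finset.sum_le_sum (fun u _ => ?_)
  split_ifs with h
  · rw [Finset.card_filter]
    refine Finset.sum_le_sum (fun w _ => ?_)
    refine (be_le_adj U x w u).trans ?_
    rw [G.adj_comm]
  · refine le_of_eq (Finset.sum_eq_zero (fun w _ => ?_))
    unfold be
    rw [if_neg]
    rintro ⟨-, -, -, h'⟩
    exact h h'

theorem al_le_one (U : Finset V) (x : V → ℕ) (u : V) : al G U x u ≤ 1 := by
  unfold al; split_ifs <;> simp

theorem two_le_dg {U : Finset V} (hU : Conn G U) (hc : 3 ≤ U.card)
    (hall : ∀ v ∈ U, NC G U v) {u : V} (hu : u ∈ U) : 2 ≤ dg G U u := by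
  obtain ⟨y, hy, huy⟩ := hU.exists_adj hu (by omega)
  have hne : u ≠ y := G.ne_of_adj huy
  obtain ⟨z, hz, huz⟩ := (hall y hy).exists_adj (v := u) (Finset.mem_erase.2 ⟨hne, hu⟩)
    (by rw [Finset.card_erase_of_mem hy]; omega)
  rw [Finset.mem_erase] at hz
  unfold dg
  have hsub : ({y, z} : Finset V) ⊆ U.filter (fun w => G.Adj u w) := by
    intro w hw
    rw [Finset.mem_insert, Finset.mem_singleton] at hw
    rw [Finset.mem_filter]
    rcases hw with rfl | rfl
    · exact ⟨hy, huy⟩
    · exact ⟨hz.2, huz⟩
  calc 2 = ({y, z} : Finset V).card := by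
        rw [Finset.card_pair (Ne.symm hz.1)]
    _ ≤ _ := Finset.card_le_card hsub

theorem dg_lt (U : Finset V) {u : V} (hu : u ∈ U) : dg G U u + 1 ≤ U.card := by
  unfold dg
  have : U.filter (fun w => G.Adj u w) ⊆ U.erase u := by
    intro w hw
    rw [Finset.mem_filter] at hw
    rw [Finset.mem_erase]
    exact ⟨(G.ne_of_adj hw.2).symm, hw.1⟩
  have := Finset.card_le_card this
  rw [Finset.card_erase_of_mem hu] at this
  have h2 : 0 < U.card := Finset.card_pos.2 ⟨u, hu⟩
  omega

theorem f_all {U : Finset V} (hall : ∀ v ∈ U, NC G U v) : f G U = U.card := by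
  unfold f
  rw [Finset.card_eq_sum_ones]
  exact Finset.sum_congr rfl (fun w hw => if_pos (hall w hw))

theorem fN_all {U : Finset V} (hall : ∀ v ∈ U, NC G U v) (x : V → ℕ) :
    fN G U x = (U.filter (fun w => x w = 0)).card := by
  unfold fN
  rw [Finset.card_filter]
  refine Finset.sum_congr rfl (fun w hw => ?_)
  simp [hall w hw]

/-- Base case of the general inequality. -/
theorem base_ineq {U : Finset V} (hU : Conn G U) (hc : 2 ≤ U.card)
    (hall : ∀ v ∈ U, NC G U v) (x : V → ℕ) (hx : ∃ v ∈ U, x v ≠ 0) :
    LHS G U x + 6 ≤ 2 * fN G U x + 3 * f G U := by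
  rw [f_all hall, fN_all hall]
  set J := U.filter (fun w => x w = 0) with hJ
  set K := U.filter (fun w => ¬ x w = 0) with hK
  have hJK : J.card + K.card = U.card := Finset.card_filter_add_card_filter_not _
  have hKpos : 1 ≤ K.card := by
    obtain ⟨v, hv, hxv⟩ := hx
    exact Finset.card_pos.2 ⟨v, by rw [hK, Finset.mem_filter]; exact ⟨hv, hxv⟩⟩
  have hsumal : ∑ u ∈ U, al G U x u = ∑ u ∈ J, al G U x u + ∑ u ∈ K, al G U x u :=
    (Finset.sum_filter_add_sum_filter_not _ _ _).symm
  rcases Nat.lt_or_ge U.card 3 with hc3 | hc3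
  · -- two vertices
    have hc2 : U.card = 2 := by omega
    have hd : ∀ u ∈ U, dg G U u = 1 := by
      intro u hu
      have h1 := dg_lt (G := G) U hu
      obtain ⟨y, hy, huy⟩ := hU.exists_adj hu (by omega)
      have h2 : 0 < dg G U u := by
        unfold dg
        exact Finset.card_pos.2 ⟨y, by rw [Finset.mem_filter]; exact ⟨hy, huy⟩⟩
      omega
    have hK0 : ∑ u ∈ K, al G U x u = 0 := by
      refine Finset.sum_eq_zero (fun u hu => ?_)
      rw [hK, Finset.mem_filter] at hu
      unfold al
      rw [if_neg hu.2, hd u hu.1]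
      simp
    have hJ1 : ∑ u ∈ J, al G U x u ≤ J.card := by
      rw [Finset.card_eq_sum_ones]
      exact Finset.sum_le_sum (fun u _ => al_le_one U x u)
    have hS : ∑ w ∈ U, ∑ u ∈ U, be G U x w u ≤ J.card := by
      refine (sum_be_le1 U x).trans ?_
      rw [Finset.card_eq_sum_ones]
      refine Finset.sum_le_sum (fun u hu => ?_)
      rw [Finset.mem_filter] at hu
      rw [hd u hu.1]
    unfold LHS
    omega
  · -- at least three vertices
    have hd2 : ∀ u ∈ U, 2 ≤ dg G U u := fun u hu => two_le_dg hU hc3 hall hu
    set T := (J.filter (fun u => dg G U u ≠ 2)).card with hT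
    set t3 := (J.filter (fun u => dg G U u = 3)).card with ht3
    have hTj : T ≤ J.card := Finset.card_filter_le _ _
    have ht3T : t3 ≤ T := by
      apply Finset.card_le_card
      intro u hu
      rw [Finset.mem_filter] at hu ⊢
      exact ⟨hu.1, by omega⟩
    have hKal : ∑ u ∈ K, al G U x u ≤ K.card := by
      rw [Finset.card_eq_sum_ones]
      exact Finset.sum_le_sum (fun u _ => al_le_one U x u)
    have hJal : ∑ u ∈ J, al G U x u = T := by
      rw [hT, Finset.card_filter]
      refine Finset.sum_congr rfl (fun u hu => ?_)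
      rw [hJ, Finset.mem_filter] at hu
      unfold al
      rw [if_pos hu.2]
    -- bounds for the pair sum
    have hcJ : ∀ u, (U.filter (fun w => x w = 0 ∧ G.Adj u w)).card ≤ J.card := by
      intro u
      apply Finset.card_le_card
      intro w hw
      rw [Finset.mem_filter] at hw
      rw [hJ, Finset.mem_filter]
      exact ⟨hw.1, hw.2.1⟩
    have hcJ' : ∀ u ∈ J, (U.filter (fun w => x w = 0 ∧ G.Adj u w)).card + 1 ≤ J.card := by
      intro u hu
      have : U.filter (fun w => x w = 0 ∧ G.Adj u w) ⊆ J.erase u := by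
        intro w hw
        rw [Finset.mem_filter] at hw
        rw [Finset.mem_erase, hJ, Finset.mem_filter]
        exact ⟨(G.ne_of_adj hw.2.2).symm, hw.1, hw.2.1⟩
      have := Finset.card_le_card this
      rw [Finset.card_erase_of_mem hu] at this
      have h2 : 0 < J.card := Finset.card_pos.2 ⟨u, hu⟩
      omega
    have hcd : ∀ u, (U.filter (fun w => x w = 0 ∧ G.Adj u w)).card ≤ dg G U u := by
      intro u
      apply Finset.card_le_card
      intro w hw
      rw [Finset.mem_filter] at hw ⊢
      exact ⟨hw.1, hw.2.2⟩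
    have hS2 : ∑ w ∈ U, ∑ u ∈ U, be G U x w u ≤
        K.card * min 2 J.card + t3 * min 3 (J.card - 1) := by
      refine (sum_be_le2 U x).trans ?_
      rw [Finset.sum_filter]
      have e : ∑ u ∈ U, (if dg G U u + x u = 3 then
          (U.filter (fun w => x w = 0 ∧ G.Adj u w)).card else 0)
          = ∑ u ∈ J, (if dg G U u + x u = 3 then
          (U.filter (fun w => x w = 0 ∧ G.Adj u w)).card else 0)
          + ∑ u ∈ K, (if dg G U u + x u = 3 then
          (U.filter (fun w => x w = 0 ∧ G.Adj u w)).card else 0) :=
        (Finset.sum_filter_add_sum_filter_not _ _ _).symm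
      rw [e, add_comm]
      refine Nat.add_le_add ?_ ?_
      · rw [← smul_eq_mul]
        apply Finset.sum_le_card_nsmul
        intro u hu
        rw [hK, Finset.mem_filter] at hu
        split_ifs with h
        · have h1 := hd2 u hu.1
          have h2 := hcd u
          have h3 := hcJ u
          have h4 : dg G U u ≤ 2 := by
            have := Nat.pos_of_ne_zero hu.2
            omega
          exact le_min (h2.trans h4) h3
        · exact Nat.zero_le _
      · have : ∑ u ∈ J, (if dg G U u + x u = 3 then
            (U.filter (fun w => x w = 0 ∧ G.Adj u w)).card else 0)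
            ≤ ∑ u ∈ J.filter (fun u => dg G U u = 3), min 3 (J.card - 1) := by
          rw [Finset.sum_filter (s := J) (p := fun u => dg G U u = 3)]
          refine Finset.sum_le_sum (fun u hu => ?_)
          have hu' := hu
          rw [hJ, Finset.mem_filter] at hu'
          rw [hu'.2, add_zero]
          split_ifs with h
          · have h2 := hcd u
            have h3 := hcJ' u hu
            rw [h] at h2
            exact le_min h2 (by omega)
          · exact le_rfl
        refine this.trans (le_of_eq ?_)
        rw [Finset.sum_const, smul_eq_mul]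
    have hS1 : t3 = J.card → ∑ w ∈ U, ∑ u ∈ U, be G U x w u ≤ 3 * J.card := by
      intro h
      have hall3 : ∀ u ∈ J, dg G U u = 3 := by
        have := Finset.filter_card_eq h
        exact this
      refine (sum_be_le1 U x).trans ?_
      rw [mul_comm, ← smul_eq_mul]
      refine Finset.sum_le_card_nsmul _ _ _ ?_
      intro u hu
      exact (hall3 u hu).le
    unfold LHS
    rw [hsumal, hJal]
    set S := ∑ w ∈ U, ∑ u ∈ U, be G U x w u with hSdef
    set k := K.card with hk
    set j := J.card with hj
    -- numeric part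
    rcases Nat.lt_or_ge j 6 with hj6 | hj6
    · interval_cases j
      · simp at hS2 hTj; omega
      · simp at hS2; omega
      · have : min 3 (2 - 1) = 1 := by norm_num
        simp at hS2; omega
      · have : min 3 (3 - 1) = 2 := by norm_num
        simp at hS2; omega
      · have : min 3 (4 - 1) = 3 := by norm_num
        simp at hS2
        rcases Nat.lt_or_ge t3 4 with h | h
        · omega
        · have := hS1 (by omega)
          omega
      · simp at hS2
        rcases Nat.lt_or_ge t3 5 with h | h
        · omega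
        · have := hS1 (by omega)
          omega
    · have h1 : min 2 j = 2 := by omega
      have h2 : min 3 (j - 1) = 3 := by omega
      rw [h1, h2] at hS2
      omega

/-- The general inequality. -/
theorem general_ineq : ∀ (n : ℕ) (U : Finset V), U.card = n → Conn G U → 2 ≤ U.card →
    ∀ x : V → ℕ, (∃ v ∈ U, x v ≠ 0) → LHS G U x + 6 ≤ 2 * fN G U x + 3 * f G U := by
  intro n
  induction n using Nat.strong_induction_on with
  | _ n ih =>
    intro U hUn hU hc x hx
    by_cases hall : ∀ v ∈ U, NC G U v
    · exact base_ineq hU hc hall x hx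
    · push Not at hall
      obtain ⟨v, hv, hnc⟩ := hall
      obtain ⟨A, B, hA, hB, hvA, hvB, hAB, hno, rfl⟩ := exists_split hU hv hc hnc
      obtain ⟨hcA, hcB⟩ := (conn_split hvA hvB hAB hno).1 hU
      have hcard : (insert v (A ∪ B)).card = A.card + B.card + 1 := by
        rw [Finset.card_insert_of_notMem (by simp [hvA, hvB]), Finset.card_union_of_disjoint hAB]
      have hpA := hA.card_pos
      have hpB := hB.card_pos
      have hcA' : (insert v A).card = A.card + 1 := Finset.card_insert_of_notMem hvA
      have hcB' : (insert v B).card = B.card + 1 := Finset.card_insert_of_notMem hvB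
      refine split_ineq hvA hvB hAB hA hB hno hcA hcB hnc x ?_ ?_
      · exact ih _ (by omega) _ rfl hcA (by omega) _ ⟨v, by simp, xs_ne hvB hB hcB x⟩
      · exact ih _ (by omega) _ rfl hcB (by omega) _ ⟨v, by simp, xs_ne hvA hA hcA x⟩

/-- The local inequality, `x = 0`. -/
theorem local_ineq {U : Finset V} (hU : Conn G U) (hc : 2 ≤ U.card) :
    LHS G U (fun _ => 0) + 4 ≤ 5 * f G U := by
  have hfN : fN G U (fun _ => 0) = f G U := by
    unfold fN f; simp
  by_cases hall : ∀ v ∈ U, NC G U v
  · rw [f_all hall]
    have h1 : ∑ u ∈ U, al G U (fun _ => 0) u ≤ U.card := by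
      rw [Finset.card_eq_sum_ones]
      exact Finset.sum_le_sum (fun u _ => al_le_one U _ u)
    unfold LHS
    rcases Nat.lt_or_ge U.card 4 with h4 | h4
    · have h0 : ∑ w ∈ U, ∑ u ∈ U, be G U (fun _ => 0) w u ≤ 0 := by
        refine (sum_be_le2 U _).trans ?_
        rw [Finset.filter_false_of_mem]
        · simp
        · intro u hu
          have := dg_lt (G := G) U hu
          omega
      omega
    · have h0 : ∑ w ∈ U, ∑ u ∈ U, be G U (fun _ => 0) w u ≤ U.card * 3 := by
        refine (sum_be_le2 U _).trans ?_
        rw [Finset.sum_filter, ← smul_eq_mul]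
        apply Finset.sum_le_card_nsmul
        intro u _
        split_ifs with h
        · have : (U.filter (fun w => (fun _ : V => 0) w = 0 ∧ G.Adj u w)).card ≤ dg G U u := by
            apply Finset.card_le_card
            intro w hw
            rw [Finset.mem_filter] at hw ⊢
            exact ⟨hw.1, hw.2.2⟩
          exact this.trans (by simpa using h.le)
        · exact Nat.zero_le _
      omega
  · push Not at hall
    obtain ⟨v, hv, hnc⟩ := hall
    obtain ⟨A, B, hA, hB, hvA, hvB, hAB, hno, rfl⟩ := exists_split hU hv hc hnc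
    obtain ⟨hcA, hcB⟩ := (conn_split hvA hvB hAB hno).1 hU
    have hpA := hA.card_pos
    have hpB := hB.card_pos
    have hcA' : (insert v A).card = A.card + 1 := Finset.card_insert_of_notMem hvA
    have hcB' : (insert v B).card = B.card + 1 := Finset.card_insert_of_notMem hvB
    have := split_ineq hvA hvB hAB hA hB hno hcA hcB hnc (fun _ => 0)
      (general_ineq _ _ rfl hcA (by omega) _ ⟨v, by simp, xs_ne hvB hB hcB _⟩)
      (general_ineq _ _ rfl hcB (by omega) _ ⟨v, by simp, xs_ne hvA hA hcA _⟩)
    rw [hfN] at this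
    omega

end Pool.Agent.MP_345bc6_co
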