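import Mathlib
import Pool.Agent.Lib.MP_345bc6_co.Main
import Pool.Agent.Lib.MP_345bc6_co.Defs

set_option autoImplicit false

namespace Pool.Agent.MP_345bc6_co

open Finset
open scoped Classical

variable {V : Type*} [Fintype V]

variable {G : SimpleGraph V}

theorem mem_connSets {U : Finset V} : U ∈ connSets G ↔ Conn G U := by
  unfold connSets
  rw [Finset.mem_filter, conn_iff]
  simp

theorem sum_f_le :
    ∑ U ∈ connSets G, f G U ≤ ∑ U ∈ connSets G, (Fintype.card V - U.card) := by
  have h1 : ∀ U : Finset V, f G U = ∑ w : V, if w ∈ U ∧ NC G U w then 1 else 0 := by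
    intro U
    unfold f
    rw [← Finset.sum_filter_add_sum_filter_not Finset.univ (fun w => w ∈ U)]
    have e1 : Finset.univ.filter (fun w => w ∈ U) = U := by ext; simp
    rw [e1]
    have e2 : ∑ w ∈ Finset.univ.filter (fun w => ¬ w ∈ U),
        (if w ∈ U ∧ NC G U w then 1 else 0) = 0 := by
      refine Finset.sum_eq_zero (fun w hw => ?_)
      rw [Finset.mem_filter] at hw
      rw [if_neg]
      exact fun h => hw.2 h.1
    rw [e2, add_zero]
    exact Finset.sum_congr rfl (fun w hw => by simp [hw])
  have h2 : ∀ U : Finset V, Fintype.card V - U.card = ∑ w : V, if w ∉ U then 1 else 0 := by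
    intro U
    rw [← Finset.card_compl, ← Finset.card_filter]
    congr 1
    ext w; simp
  rw [Finset.sum_congr rfl (fun U _ => h1 U), Finset.sum_congr rfl (fun U _ => h2 U),
    Finset.sum_comm, Finset.sum_comm (s := connSets G)]
  refine Finset.sum_le_sum (fun w _ => ?_)
  rw [← Finset.card_filter, ← Finset.card_filter]
  apply Finset.card_le_card_of_injOn (fun U => U.erase w)
  · intro U hU
    rw [Finset.mem_coe, Finset.mem_filter] at hU ⊢
    refine ⟨mem_connSets.2 hU.2.2, by simp⟩
  · intro U hU W hW h
    rw [Finset.mem_coe, Finset.mem_filter] at hU hW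
    have := congrArg (insert w) h
    simp only [Finset.insert_erase hU.2.1, Finset.insert_erase hW.2.1] at this
    exact this

theorem dg_insert {U : Finset V} {v w : V} (hw : w ∉ U) (h : G.Adj v w) :
    dg G (insert w U) v = dg G U v + 1 := by
  unfold dg
  rw [Finset.filter_insert, if_pos h, Finset.card_insert_of_notMem]
  intro hcon
  exact hw (Finset.mem_filter.1 hcon).1

/-- The number of vertices of degree two. -/
noncomputable def n2 (G : SimpleGraph V) : ℕ :=
  (Finset.univ.filter (fun v => dg G Finset.univ v = 2)).card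

theorem sum_P2_le :
    ∑ U ∈ connSets G, (U.filter (fun v => dg G U v = 2)).card ≤
      ∑ U ∈ connSets G, ∑ w ∈ U, ∑ u ∈ U, be G U (fun _ => 0) w u
        + n2 G * (connSets G).card := by
  have h1 : ∀ U : Finset V, (U.filter (fun v => dg G U v = 2)).card ≤
      ∑ v : V, ∑ w : V, (if (v ∈ U ∧ dg G U v = 2 ∧ w ∉ U ∧ G.Adj v w) then 1 else 0)
        + n2 G := by
    intro U
    have : U.filter (fun v => dg G U v = 2) =
        Finset.univ.filter (fun v => v ∈ U ∧ dg G U v = 2) := by ext; simp
    rw [this, Finset.card_filter]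
    unfold n2
    rw [Finset.card_filter, ← Finset.sum_add_distrib]
    refine Finset.sum_le_sum (fun v _ => ?_)
    by_cases h : v ∈ U ∧ dg G U v = 2
    · by_cases h2 : dg G Finset.univ v = 2
      · simp only [h2, if_true]
        split_ifs <;> simp
      · have hex : ∃ w : V, w ∉ U ∧ G.Adj v w := by
          by_contra hcon
          push Not at hcon
          apply h2
          rw [← h.2]
          unfold dg
          congr 1
          ext w
          simp only [Finset.mem_filter, Finset.mem_univ, true_and]
          constructor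
          · intro hw
            refine ⟨?_, hw⟩
            by_contra hwU
            exact hcon w hwU hw
          · exact fun hw => hw.2
        obtain ⟨w, hw, hvw⟩ := hex
        rw [if_pos h]
        refine le_trans (le_trans (le_of_eq ?_) (Finset.single_le_sum (f := fun w : V =>
          if (v ∈ U ∧ dg G U v = 2 ∧ w ∉ U ∧ G.Adj v w) then 1 else 0)
          (fun i _ => Nat.zero_le _) (Finset.mem_univ w))) (Nat.le_add_right _ _)
        simp [h.1, h.2, hw, hvw]
    · rw [if_neg h]
      exact Nat.zero_le _
  have h2 : ∀ U : Finset V, ∑ w ∈ U, ∑ u ∈ U, be G U (fun _ => 0) w u =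
      ∑ v : V, ∑ w : V, if (v ∈ U ∧ w ∈ U ∧ NC G U w ∧ G.Adj w v ∧ dg G U v = 3)
        then 1 else 0 := by
    intro U
    rw [Finset.sum_comm]
    have key : ∀ g : V → ℕ, ∑ v ∈ U, g v = ∑ v : V, if v ∈ U then g v else 0 := by
      intro g
      rw [← Finset.sum_filter]
      congr 1
      ext; simp
    rw [key]
    refine Finset.sum_congr rfl (fun v _ => ?_)
    split_ifs with hv
    · rw [key]
      refine Finset.sum_congr rfl (fun w _ => ?_)
      unfold be
      by_cases hw : w ∈ U
      · simp [hv, hw]
      · simp [hw]
    · simp [hv]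
  have h3 : ∑ U ∈ connSets G, ∑ v : V, ∑ w : V,
        (if (v ∈ U ∧ dg G U v = 2 ∧ w ∉ U ∧ G.Adj v w) then 1 else 0)
      ≤ ∑ U ∈ connSets G, ∑ w ∈ U, ∑ u ∈ U, be G U (fun _ => 0) w u := by
    rw [Finset.sum_congr rfl (fun U _ => h2 U), Finset.sum_comm,
      Finset.sum_comm (s := connSets G)]
    refine Finset.sum_le_sum (fun v _ => ?_)
    rw [Finset.sum_comm, Finset.sum_comm (s := connSets G)]
    refine Finset.sum_le_sum (fun w _ => ?_)
    rw [← Finset.card_filter, ← Finset.card_filter]
    apply Finset.card_le_card_of_injOn (fun U => insert w U)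
    · intro U hU
      rw [Finset.mem_coe, Finset.mem_filter] at hU ⊢
      obtain ⟨hU1, hvU, hd, hwU, hvw⟩ := hU
      have hc := mem_connSets.1 hU1
      refine ⟨mem_connSets.2 (hc.insert_adj hvU hvw), by simp [hvU], by simp, ?_, hvw.symm, ?_⟩
      · unfold NC
        rw [Finset.erase_insert hwU]
        exact hc
      · rw [dg_insert hwU hvw, hd]
    · intro U hU W hW h
      rw [Finset.mem_coe, Finset.mem_filter] at hU hW
      have := congrArg (fun X => Finset.erase X w) h
      simp only [Finset.erase_insert hU.2.2.2.1, Finset.erase_insert hW.2.2.2.1] at this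
      exact this
  refine (Finset.sum_le_sum (fun U _ => h1 U)).trans ?_
  rw [Finset.sum_add_distrib, Finset.sum_const, smul_eq_mul, mul_comm (n2 G)]
  exact Nat.add_le_add_right h3 _

theorem card_eq_P2 (U : Finset V) :
    U.card = (U.filter (fun v => dg G U v = 2)).card + ∑ u ∈ U, al G U (fun _ => 0) u := by
  rw [← Finset.card_filter_add_card_filter_not (s := U) (fun v => dg G U v = 2)]
  congr 1
  rw [Finset.card_filter]
  refine Finset.sum_congr rfl (fun u _ => ?_)
  unfold al
  simp

theorem LHS_le {U : Finset V} (hU : Conn G U) :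
    LHS G U (fun _ => 0) + 4 ≤ 5 * f G U + 5 * (if U.card = 1 then 1 else 0) := by
  rcases Nat.lt_or_ge U.card 2 with h | h
  · have h1 : U.card = 1 := by
      have := hU.1.card_pos
      omega
    obtain ⟨v, rfl⟩ := Finset.card_eq_one.1 h1
    have hb : ∑ w ∈ ({v} : Finset V), ∑ u ∈ ({v} : Finset V), be G {v} (fun _ => 0) w u = 0 := by
      rw [Finset.sum_singleton, Finset.sum_singleton]
      unfold be
      rw [if_neg]
      rintro ⟨-, -, h, -⟩
      exact G.irrefl h
    have ha : ∑ u ∈ ({v} : Finset V), al G {v} (fun _ => 0) u ≤ 1 := by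
      rw [Finset.sum_singleton]
      exact al_le_one _ _ _
    unfold LHS
    rw [if_pos h1]
    omega
  · have := local_ineq hU h
    omega

theorem card_singletons_le :
    ∑ U ∈ connSets G, (if U.card = 1 then 1 else 0) ≤ Fintype.card V := by
  rw [← Finset.card_filter, ← Finset.card_univ]
  have : (connSets G).filter (fun U => U.card = 1) ⊆
      Finset.univ.image (fun v : V => ({v} : Finset V)) := by
    intro U hU
    rw [Finset.mem_filter] at hU
    obtain ⟨v, rfl⟩ := Finset.card_eq_one.1 hU.2
    simp
  exact (Finset.card_le_card this).trans Finset.card_image_le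

/-- The main counting inequality. -/
theorem main_count :
    6 * ∑ U ∈ connSets G, U.card + 4 * (connSets G).card ≤
      5 * (Fintype.card V * (connSets G).card) + n2 G * (connSets G).card
        + 5 * Fintype.card V := by
  have h1 := sum_f_le (G := G)
  have h2 := sum_P2_le (G := G)
  have h3 : ∑ U ∈ connSets G, U.card = ∑ U ∈ connSets G, (U.filter (fun v => dg G U v = 2)).card
      + ∑ U ∈ connSets G, ∑ u ∈ U, al G U (fun _ => 0) u := by
    rw [← Finset.sum_add_distrib]
    exact Finset.sum_congr rfl (fun U _ => card_eq_P2 U)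
  have h4 : ∑ U ∈ connSets G, LHS G U (fun _ => 0) + 4 * (connSets G).card ≤
      5 * ∑ U ∈ connSets G, f G U
        + 5 * ∑ U ∈ connSets G, (if U.card = 1 then 1 else 0) := by
    have := Finset.sum_le_sum (fun U hU => LHS_le (mem_connSets.1 hU) : ∀ U ∈ connSets G, _)
    rw [Finset.sum_add_distrib, Finset.sum_add_distrib, Finset.sum_const, smul_eq_mul,
      ← Finset.mul_sum, ← Finset.mul_sum] at this
    omega
  have h5 : ∑ U ∈ connSets G, LHS G U (fun _ => 0) =
      ∑ U ∈ connSets G, ∑ u ∈ U, al G U (fun _ => 0) u
      + ∑ U ∈ connSets G, ∑ w ∈ U, ∑ u ∈ U, be G U (fun _ => 0) w u := by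
    rw [← Finset.sum_add_distrib]
    rfl
  have h6 := card_singletons_le (G := G)
  have h7 : ∑ U ∈ connSets G, (Fintype.card V - U.card) + ∑ U ∈ connSets G, U.card =
      Fintype.card V * (connSets G).card := by
    rw [← Finset.sum_add_distrib, mul_comm, ← smul_eq_mul, ← Finset.sum_const]
    refine Finset.sum_congr rfl (fun U _ => ?_)
    have := Finset.card_le_univ U
    omega
  omega

theorem card_connSets_ge (hdeg : ∀ v : V, 1 ≤ dg G Finset.univ v) :
    3 * Fintype.card V ≤ 2 * (connSets G).card := by
  -- pairs
  have h2 : 1 * Fintype.card V ≤ 2 * ((connSets G).filter (fun U => U.card = 2)).card := by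
    have e1 : ∑ U ∈ (connSets G).filter (fun U => U.card = 2), U.card
        = 2 * ((connSets G).filter (fun U => U.card = 2)).card := by
      rw [mul_comm, ← smul_eq_mul, ← Finset.sum_const]
      exact Finset.sum_congr rfl (fun U hU => (Finset.mem_filter.1 hU).2)
    rw [← e1]
    have e2 : ∀ U : Finset V, U.card = ∑ v : V, if v ∈ U then 1 else 0 := by
      intro U; simp
    rw [Finset.sum_congr rfl (fun U _ => e2 U), Finset.sum_comm, mul_comm, ← smul_eq_mul,
      ← Finset.card_univ, ← Finset.sum_const]
    refine Finset.sum_le_sum (fun v _ => (hdeg v).trans ?_)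
    rw [← Finset.card_filter]
    unfold dg
    apply Finset.card_le_card_of_injOn (fun u => ({v, u} : Finset V))
    · intro u hu
      rw [Finset.mem_coe, Finset.mem_filter] at hu
      rw [Finset.mem_coe, Finset.mem_filter, Finset.mem_filter]
      have hne := G.ne_of_adj hu.2
      refine ⟨⟨mem_connSets.2 ?_, Finset.card_pair hne⟩, by simp⟩
      have := (Conn.singleton G v).insert_adj (u := v) (by simp) hu.2
      show Conn G {v, u}
      rw [Finset.pair_comm]
      exact this
    · intro u hu w hw h
      rw [Finset.mem_coe, Finset.mem_filter] at hu hw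
      have hne := G.ne_of_adj hu.2
      have h' : ({v, u} : Finset V) = {v, w} := h
      have : u ∈ ({v, w} : Finset V) := by
        rw [← h']; simp
      rw [Finset.mem_insert, Finset.mem_singleton] at this
      rcases this with h | h
      · exact absurd h.symm hne
      · exact h
  have h1 : Fintype.card V ≤ ((connSets G).filter (fun U => U.card = 1)).card := by
    rw [← Finset.card_univ]
    apply Finset.card_le_card_of_injOn (fun u => ({u} : Finset V))
    · intro u _
      rw [Finset.mem_coe, Finset.mem_filter]
      exact ⟨mem_connSets.2 (Conn.singleton G u), by simp⟩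
    · intro u _ w _ h
      exact Finset.singleton_injective h
  have h3 : ((connSets G).filter (fun U => U.card = 1)).card
      + ((connSets G).filter (fun U => U.card = 2)).card ≤ (connSets G).card := by
    rw [← Finset.card_union_of_disjoint]
    · apply Finset.card_le_card
      intro U hU
      rw [Finset.mem_union, Finset.mem_filter, Finset.mem_filter] at hU
      tauto
    · rw [Finset.disjoint_filter]
      intro U _ h1 h2
      omega
  omega

/-- Every finite graph without isolated vertices on a nonempty vertex set has density of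
connected sets less than `5/6 + ρ/6`, `ρ` the proportion of vertices of degree two. -/
theorem density_lt [Nonempty V] (hdeg : ∀ v : V, 1 ≤ dg G Finset.univ v) :
    density G < 5 / 6 + (n2 G : ℝ) / (6 * (Fintype.card V : ℝ)) := by
  have h1 := main_count (G := G)
  have h2 := card_connSets_ge hdeg
  have hn : 0 < Fintype.card V := Fintype.card_pos
  have hN : 0 < (connSets G).card := by omega
  have h3 : 6 * ∑ U ∈ connSets G, U.card <
      5 * (Fintype.card V * (connSets G).card) + n2 G * (connSets G).card := by
    omega
  have h3' : 6 * ∑ U ∈ connSets G, (U.card : ℝ) <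
      5 * ((Fintype.card V : ℝ) * ((connSets G).card : ℝ))
        + (n2 G : ℝ) * ((connSets G).card : ℝ) := by
    have := (Nat.cast_lt (α := ℝ)).2 h3
    push_cast at this
    exact this
  unfold density
  have hn' : (0 : ℝ) < Fintype.card V := by exact_mod_cast hn
  have hN' : (0 : ℝ) < (connSets G).card := by exact_mod_cast hN
  have e : (5 : ℝ) / 6 + (n2 G : ℝ) / (6 * (Fintype.card V : ℝ)) =
      (5 * (Fintype.card V : ℝ) + n2 G) / (6 * (Fintype.card V : ℝ)) := by
    field_simp
  rw [e, div_div, div_lt_div_iff₀ (by positivity) (by positivity)]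
  nlinarith

end Pool.Agent.MP_345bc6_co
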