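import Mathlib
import Pool.Agent.Lib.MP_345bc6_co.Count

set_option autoImplicit false

namespace Pool.Agent.MP_345bc6_co

open Finset
open scoped Classical

/-- `i` is a middle block. -/
def Mid (m : ℕ) (i : Fin (m + 2)) : Prop := 0 < (i : ℕ) ∧ (i : ℕ) < m + 1

/-- Adjacency of the chain of diamonds with two end blocks `K₄`. -/
def cadj (m : ℕ) (p q : Fin (m + 2) × Fin 4) : Prop :=
  (p.1 = q.1 ∧ p.2 ≠ q.2 ∧
      ¬ (Mid m p.1 ∧ ((p.2 = 0 ∧ q.2 = 3) ∨ (p.2 = 3 ∧ q.2 = 0)))) ∨
    ((q.1 : ℕ) = p.1 + 1 ∧ p.2 = 3 ∧ q.2 = 0) ∨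
    ((p.1 : ℕ) = q.1 + 1 ∧ p.2 = 0 ∧ q.2 = 3)

/-- The chain of `m` diamonds with two end blocks `K₄`. -/
def chain (m : ℕ) : SimpleGraph (Fin (m + 2) × Fin 4) where
  Adj := cadj m
  symm := ⟨by
    intro p q h
    unfold cadj at *
    rcases h with ⟨h1, h2, h3⟩ | ⟨h1, h2, h3⟩ | ⟨h1, h2, h3⟩
    · refine Or.inl ⟨h1.symm, h2.symm, ?_⟩
      rw [← h1]
      tauto
    · exact Or.inr (Or.inr ⟨h1, h3, h2⟩)
    · exact Or.inr (Or.inl ⟨h1, h3, h2⟩)⟩
  loopless := ⟨by
    intro p h
    unfold cadj at h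
    rcases h with ⟨-, h2, -⟩ | ⟨h1, -, -⟩ | ⟨h1, -, -⟩
    · exact h2 rfl
    · omega
    · omega⟩

variable {m : ℕ}

theorem chain_adj_block {i : Fin (m + 2)} {x y : Fin 4} (hxy : x ≠ y)
    (h : x = 1 ∨ x = 2 ∨ y = 1 ∨ y = 2) : (chain m).Adj (i, x) (i, y) := by
  refine Or.inl ⟨rfl, hxy, ?_⟩
  rintro ⟨-, ⟨h1, h2⟩ | ⟨h1, h2⟩⟩
  · simp only at h1 h2; subst h1; subst h2; simp at h
  · simp only at h1 h2; subst h1; subst h2; simp at h

theorem chain_adj_end {i : Fin (m + 2)} (hi : ¬ Mid m i) {x y : Fin 4} (hxy : x ≠ y) :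
    (chain m).Adj (i, x) (i, y) :=
  Or.inl ⟨rfl, hxy, fun h => hi h.1⟩

theorem chain_adj_succ {i j : Fin (m + 2)} (h : (j : ℕ) = i + 1) :
    (chain m).Adj (i, 3) (j, 0) :=
  Or.inr (Or.inl ⟨h, rfl, rfl⟩)

/-- Every vertex has degree at least three. -/
theorem chain_deg (v : Fin (m + 2) × Fin 4) : 3 ≤ dg (chain m) Finset.univ v := by
  obtain ⟨i, x⟩ := v
  have key : ∀ a b c : Fin (m + 2) × Fin 4, a ≠ b → a ≠ c → b ≠ c →
      (chain m).Adj (i, x) a → (chain m).Adj (i, x) b → (chain m).Adj (i, x) c →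
      3 ≤ dg (chain m) Finset.univ (i, x) := by
    intro a b c hab hac hbc ha hb hc
    have hcard : ({a, b, c} : Finset (Fin (m + 2) × Fin 4)).card = 3 :=
      Finset.card_eq_three.2 ⟨a, b, c, hab, hac, hbc, rfl⟩
    rw [← hcard]
    unfold dg
    apply Finset.card_le_card
    intro z hz
    simp only [Finset.mem_insert, Finset.mem_singleton] at hz
    rw [Finset.mem_filter]
    refine ⟨Finset.mem_univ _, ?_⟩
    rcases hz with rfl | rfl | rfl <;> assumption
  have h4 : x = 0 ∨ x = 1 ∨ x = 2 ∨ x = 3 := by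
    fin_cases x <;> simp
  by_cases hi : Mid m i
  · rcases h4 with rfl | rfl | rfl | rfl
    · refine key (i, 1) (i, 2) (⟨(i : ℕ) - 1, by have := i.2; omega⟩, 3) (by simp) (by simp)
        (by simp) (chain_adj_block (by decide) (by simp)) (chain_adj_block (by decide) (by simp)) ?_
      refine (chain_adj_succ ?_).symm
      have := hi.1
      simp only
      omega
    · exact key (i, 0) (i, 2) (i, 3) (by simp) (by simp) (by simp)
        (chain_adj_block (by decide) (by simp)) (chain_adj_block (by decide) (by simp))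
        (chain_adj_block (by decide) (by simp))
    · exact key (i, 0) (i, 1) (i, 3) (by simp) (by simp) (by simp)
        (chain_adj_block (by decide) (by simp)) (chain_adj_block (by decide) (by simp))
        (chain_adj_block (by decide) (by simp))
    · refine key (i, 1) (i, 2) (⟨(i : ℕ) + 1, by have := hi.2; omega⟩, 0) (by simp) (by simp)
        (by simp) (chain_adj_block (by decide) (by simp)) (chain_adj_block (by decide) (by simp)) ?_
      exact chain_adj_succ rfl
  · rcases h4 with rfl | rfl | rfl | rfl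
    · exact key (i, 1) (i, 2) (i, 3) (by simp) (by simp) (by simp)
        (chain_adj_end hi (by decide)) (chain_adj_end hi (by decide))
        (chain_adj_end hi (by decide))
    · exact key (i, 0) (i, 2) (i, 3) (by simp) (by simp) (by simp)
        (chain_adj_end hi (by decide)) (chain_adj_end hi (by decide))
        (chain_adj_end hi (by decide))
    · exact key (i, 0) (i, 1) (i, 3) (by simp) (by simp) (by simp)
        (chain_adj_end hi (by decide)) (chain_adj_end hi (by decide))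
        (chain_adj_end hi (by decide))
    · exact key (i, 0) (i, 1) (i, 2) (by simp) (by simp) (by simp)
        (chain_adj_end hi (by decide)) (chain_adj_end hi (by decide))
        (chain_adj_end hi (by decide))

/-- The connected sets that cross all diamonds. -/
noncomputable def Uof (m : ℕ) (s : Fin (m + 2) → Fin 3) : Finset (Fin (m + 2) × Fin 4) :=
  Finset.univ.filter (fun v => ¬ (Mid m v.1 ∧ ((s v.1 = 0 ∧ v.2 = 2) ∨ (s v.1 = 1 ∧ v.2 = 1))))

theorem Uof_conn (s : Fin (m + 2) → Fin 3) : Conn (chain m) (Uof m s) := by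
  have hmem0 : ∀ i, (i, (0 : Fin 4)) ∈ Uof m s := by
    intro i; unfold Uof; simp
  have hmem3 : ∀ i, (i, (3 : Fin 4)) ∈ Uof m s := by
    intro i; unfold Uof; simp
  refine ⟨⟨(0, 0), hmem0 0⟩, fun S hS hne hne' => ?_⟩
  by_contra hcon
  push Not at hcon
  have hiff : ∀ a ∈ Uof m s, ∀ b ∈ Uof m s, (chain m).Adj a b → (a ∈ S ↔ b ∈ S) := by
    intro a ha b hb hab
    constructor
    · intro h
      by_contra h'
      exact hcon a h b hb h' hab
    · intro h
      by_contra h'
      exact hcon b h a ha h' hab.symm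
  -- a hub in each block
  have hub : ∀ i : Fin (m + 2), ∃ y : Fin 4, (y = 1 ∨ y = 2) ∧ (i, y) ∈ Uof m s := by
    intro i
    by_cases h : s i = 1
    · refine ⟨2, Or.inr rfl, ?_⟩
      unfold Uof
      simp [h]
    · refine ⟨1, Or.inl rfl, ?_⟩
      unfold Uof
      simp [h]
  have block : ∀ (i : Fin (m + 2)) (x : Fin 4), (i, x) ∈ Uof m s →
      ((i, x) ∈ S ↔ (i, (0 : Fin 4)) ∈ S) := by
    intro i x hx
    obtain ⟨y, hy, hyU⟩ := hub i
    have h0 : ((i, y) ∈ S ↔ (i, (0 : Fin 4)) ∈ S) := by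
      apply hiff _ hyU _ (hmem0 i)
      apply chain_adj_block
      · rcases hy with rfl | rfl <;> decide
      · tauto
    by_cases hxy : x = y
    · subst hxy; exact h0
    · rw [← h0]
      apply hiff _ hx _ hyU
      apply chain_adj_block hxy
      tauto
  have all0 : ∀ (k : ℕ) (hk : k < m + 2), ((⟨k, hk⟩, (0 : Fin 4)) ∈ S ↔ ((0 : Fin (m + 2)), (0 : Fin 4)) ∈ S) := by
    intro k
    induction k with
    | zero => intro hk; exact Iff.rfl
    | succ k ih =>
      intro hk
      rw [← ih (by omega)]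
      have h1 := hiff _ (hmem3 ⟨k, by omega⟩) _ (hmem0 ⟨k + 1, hk⟩) (chain_adj_succ rfl)
      rw [← h1]
      exact block _ _ (hmem3 _)
  have hall : ∀ v ∈ Uof m s, (v ∈ S ↔ ((0 : Fin (m + 2)), (0 : Fin 4)) ∈ S) := by
    rintro ⟨i, x⟩ hv
    rw [block i x hv]
    exact all0 i i.2
  obtain ⟨a, ha⟩ := hne
  have h0 := (hall a (hS ha)).1 ha
  apply hne'
  apply Finset.Subset.antisymm hS
  intro v hv
  exact (hall v hv).2 h0

theorem chain_connected : (chain m).Connected := by
  have h := (conn_iff (chain m) (Uof m (fun _ => 2))).2 (Uof_conn _)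
  have e : ((Uof m (fun _ => 2) : Finset (Fin (m + 2) × Fin 4)) : Set (Fin (m + 2) × Fin 4))
      = Set.univ := by
    ext v
    unfold Uof
    simp
  rw [e] at h
  exact (SimpleGraph.induceUnivIso (chain m)).connected_iff.1 h

/-- `U` crosses the block `i`. -/
def Cr (U : Finset (Fin (m + 2) × Fin 4)) (i : Fin (m + 2)) : Prop :=
  (i, (0 : Fin 4)) ∈ U ∧ (i, (3 : Fin 4)) ∈ U ∧ ((i, (1 : Fin 4)) ∈ U ∨ (i, (2 : Fin 4)) ∈ U)

theorem crossing {U : Finset (Fin (m + 2) × Fin 4)} (hU : Conn (chain m) U)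
    {i : Fin (m + 2)} {u w : Fin (m + 2) × Fin 4} (hu : u ∈ U) (hw : w ∈ U)
    (hui : u.1 < i) (hiw : i < w.1) : Cr U i := by
  have hmid : Mid m i := by
    refine ⟨?_, ?_⟩
    · have : (u.1 : ℕ) < i := hui
      omega
    · have : (i : ℕ) < w.1 := hiw
      have := w.1.2
      omega
  have hui' : (u.1 : ℕ) < i := hui
  have hiw' : (i : ℕ) < w.1 := hiw
  by_contra hcon
  have hcases : (i, (0 : Fin 4)) ∉ U ∨ (i, (3 : Fin 4)) ∉ U ∨
      ((i, (1 : Fin 4)) ∉ U ∧ (i, (2 : Fin 4)) ∉ U) := by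
    unfold Cr at hcon
    tauto
  rcases hcases with h | h | ⟨h1, h2⟩
  · obtain ⟨a, ha, b, hb, hbS, hab⟩ := hU.2 (U.filter (fun v => (v.1 : ℕ) < i))
      (Finset.filter_subset _ _) ⟨u, by rw [Finset.mem_filter]; exact ⟨hu, hui'⟩⟩
      (by
        intro h
        rw [← h, Finset.mem_filter] at hw
        omega)
    rw [Finset.mem_filter] at ha
    have hb' : ¬ ((b.1 : ℕ) < i) := fun h => hbS (Finset.mem_filter.2 ⟨hb, h⟩)
    rcases hab with ⟨h1, -, -⟩ | ⟨h1, -, h3⟩ | ⟨h1, -, -⟩
    · exact hb' (by rw [← h1]; exact ha.2)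
    · apply h
      have : b = (i, 0) := by
        apply Prod.ext
        · apply Fin.ext
          have ha2 := ha.2
          simp only
          omega
        · exact h3
      rw [← this]; exact hb
    · omega
  · obtain ⟨a, ha, b, hb, hbS, hab⟩ := hU.2 (U.filter (fun v => (v.1 : ℕ) ≤ i))
      (Finset.filter_subset _ _) ⟨u, by rw [Finset.mem_filter]; exact ⟨hu, by omega⟩⟩
      (by
        intro h
        rw [← h, Finset.mem_filter] at hw
        omega)
    rw [Finset.mem_filter] at ha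
    have hb' : ¬ ((b.1 : ℕ) ≤ i) := fun h => hbS (Finset.mem_filter.2 ⟨hb, h⟩)
    rcases hab with ⟨h1, -, -⟩ | ⟨h1, h3, -⟩ | ⟨h1, -, -⟩
    · exact hb' (by rw [← h1]; exact ha.2)
    · apply h
      have : a = (i, 3) := by
        apply Prod.ext
        · apply Fin.ext
          have ha2 := ha.2
          simp only
          omega
        · exact h3
      rw [← this]; exact ha.1
    · omega
  · obtain ⟨a, ha, b, hb, hbS, hab⟩ := hU.2
      (U.filter (fun v => (v.1 : ℕ) < i ∨ ((v.1 : ℕ) = i ∧ v.2 = 0)))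
      (Finset.filter_subset _ _) ⟨u, by rw [Finset.mem_filter]; exact ⟨hu, by omega⟩⟩
      (by
        intro h
        rw [← h, Finset.mem_filter] at hw
        omega)
    rw [Finset.mem_filter] at ha
    have hb' : ¬ ((b.1 : ℕ) < i ∨ ((b.1 : ℕ) = i ∧ b.2 = 0)) :=
      fun h => hbS (Finset.mem_filter.2 ⟨hb, h⟩)
    push Not at hb'
    rcases hab with ⟨h3, h4, h5⟩ | ⟨h3, h4, h5⟩ | ⟨h3, h4, h5⟩
    · have hai : (a.1 : ℕ) = i := by
        have := ha.2
        rw [h3] at this ⊢
        omega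
      have ha0 : a.2 = 0 := by
        rcases ha.2 with h | h
        · omega
        · exact h.2
      have hbi : (b.1 : ℕ) = i := by rw [← h3]; exact hai
      have hb0 := hb'.2 hbi
      have hmida : Mid m a.1 := by
        have : a.1 = i := Fin.ext hai
        rw [this]; exact hmid
      have hb3 : b.2 ≠ 3 := by
        intro h
        exact h5 ⟨hmida, Or.inl ⟨ha0, h⟩⟩
      have hb4 : b.2 = 0 ∨ b.2 = 1 ∨ b.2 = 2 ∨ b.2 = 3 := by
        generalize b.2 = y
        fin_cases y <;> simp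
      have hbe : ∀ y, b.2 = y → b = (i, y) := by
        intro y hy
        exact Prod.ext (Fin.ext hbi) hy
      rcases hb4 with h | h | h | h
      · exact hb0 h
      · exact h1 (hbe 1 h ▸ hb)
      · exact h2 (hbe 2 h ▸ hb)
      · exact hb3 h
    · rcases ha.2 with h | h
      · have : (b.1 : ℕ) = i := by omega
        exact hb'.2 this h5
      · rw [h.2] at h4
        exact absurd h4 (by decide)
    · omega

end Pool.Agent.MP_345bc6_co
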