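import Mathlib
import Pool.Agent.Lib.MP_345bc6_co.Chain

set_option autoImplicit false

namespace Pool.Agent.MP_345bc6_co

open Finset
open scoped Classical

variable {m : ℕ}

theorem card_mid (m : ℕ) : Fintype.card {i : Fin (m + 2) // Mid m i} = m := by
  rw [Fintype.card_subtype]
  have : Finset.univ.filter (fun i => Mid m i) = Finset.Ioo (0 : Fin (m + 2)) (Fin.last (m + 1)) := by
    ext i
    rw [Finset.mem_filter, Finset.mem_Ioo]
    unfold Mid
    rw [Fin.lt_def, Fin.lt_def]
    simp
  rw [this, Fin.card_Ioo]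
  simp

theorem N_ge (m : ℕ) : 3 ^ m ≤ (connSets (chain m)).card := by
  have e : Fintype.card ({i : Fin (m + 2) // Mid m i} → Fin 3) = 3 ^ m := by
    rw [Fintype.card_fun, card_mid, Fintype.card_fin]
  rw [← e, ← Finset.card_univ]
  apply Finset.card_le_card_of_injOn
    (fun g => Uof m (fun i => if h : Mid m i then g ⟨i, h⟩ else 2))
  · intro g _
    rw [Finset.mem_coe]
    exact mem_connSets.2 (Uof_conn _)
  · intro g _ g' _ h
    funext ⟨i, hi⟩
    have h1 := Finset.ext_iff.1 h (i, 1)
    have h2 := Finset.ext_iff.1 h (i, 2)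
    unfold Uof at h1 h2
    simp only [Finset.mem_filter, Finset.mem_univ, true_and, hi, dif_pos] at h1 h2
    have a1 : ((1 : Fin 4) = 2) = False := by simp
    have a2 : ((2 : Fin 4) = 1) = False := by simp
    simp only [a1, a2, and_false, false_or, or_false, and_true, not_iff_not] at h1 h2
    generalize g ⟨i, hi⟩ = a at *
    generalize g' ⟨i, hi⟩ = b at *
    revert h1 h2
    fin_cases a <;> fin_cases b <;> simp

/-- `p` and `q` are the extreme blocks of `U`. -/
def Ext (U : Finset (Fin (m + 2) × Fin 4)) (p q : Fin (m + 2)) : Prop :=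
  (∃ x, (p, x) ∈ U) ∧ (∃ y, (q, y) ∈ U) ∧ ∀ v ∈ U, p ≤ v.1 ∧ v.1 ≤ q

theorem exists_ext {U : Finset (Fin (m + 2) × Fin 4)} (hU : U.Nonempty) :
    ∃ p q, Ext U p q := by
  have hne : (U.image Prod.fst).Nonempty := hU.image _
  refine ⟨(U.image Prod.fst).min' hne, (U.image Prod.fst).max' hne, ?_, ?_, ?_⟩
  · obtain ⟨v, hv, hv'⟩ := Finset.mem_image.1 ((U.image Prod.fst).min'_mem hne)
    exact ⟨v.2, by rw [← hv']; exact hv⟩
  · obtain ⟨v, hv, hv'⟩ := Finset.mem_image.1 ((U.image Prod.fst).max'_mem hne)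
    exact ⟨v.2, by rw [← hv']; exact hv⟩
  · intro v hv
    exact ⟨Finset.min'_le _ _ (Finset.mem_image_of_mem _ hv),
      Finset.le_max' _ _ (Finset.mem_image_of_mem _ hv)⟩

/-- number of middle blocks that are not crossed -/
noncomputable def K (U : Finset (Fin (m + 2) × Fin 4)) : ℕ :=
  (Finset.univ.filter (fun i => Mid m i ∧ ¬ Cr U i)).card

theorem cr_of_ext {U : Finset (Fin (m + 2) × Fin 4)} (hU : Conn (chain m) U)
    {p q : Fin (m + 2)} (h : Ext U p q) {i : Fin (m + 2)} (hi : i ∈ Finset.Ioo p q) :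
    Cr U i := by
  obtain ⟨⟨x, hx⟩, ⟨y, hy⟩, -⟩ := h
  rw [Finset.mem_Ioo] at hi
  exact crossing hU hx hy hi.1 hi.2

theorem K_le {U : Finset (Fin (m + 2) × Fin 4)} (hU : Conn (chain m) U)
    {p q : Fin (m + 2)} (h : Ext U p q) : K U + (Finset.Ioo p q).card ≤ m := by
  have hm := card_mid m
  rw [Fintype.card_subtype] at hm
  refine le_trans ?_ (le_of_eq hm)
  unfold K
  rw [← Finset.card_union_of_disjoint]
  · apply Finset.card_le_card
    intro i hi
    rw [Finset.mem_union, Finset.mem_filter] at hi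
    rw [Finset.mem_filter]
    rcases hi with h1 | h1
    · exact ⟨h1.1, h1.2.1⟩
    · rw [Finset.mem_Ioo] at h1
      refine ⟨Finset.mem_univ _, ?_, ?_⟩
      · have : (p : ℕ) < i := h1.1
        omega
      · have : (i : ℕ) < q := h1.2
        have := q.2
        omega
  · rw [Finset.disjoint_left]
    intro i hi hi'
    rw [Finset.mem_filter] at hi
    exact hi.2.2 (cr_of_ext hU h hi')

/-- state of a crossed block -/
noncomputable def st (U : Finset (Fin (m + 2) × Fin 4)) (i : Fin (m + 2)) : Fin 3 :=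
  if (i, (2 : Fin 4)) ∉ U then 0 else if (i, (1 : Fin 4)) ∉ U then 1 else 2

theorem count_ext (p q : Fin (m + 2)) :
    ((connSets (chain m)).filter (fun U => Ext U p q)).card
      ≤ 256 * 3 ^ (Finset.Ioo p q).card := by
  have e : Fintype.card (Finset (Fin 4) × Finset (Fin 4) × ({i // i ∈ Finset.Ioo p q} → Fin 3))
      = 256 * 3 ^ (Finset.Ioo p q).card := by
    rw [Fintype.card_prod, Fintype.card_prod, Fintype.card_fun, Fintype.card_finset,
      Fintype.card_fin, Fintype.card_fin, Fintype.card_coe]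
    ring
  rw [← e, ← Finset.card_univ]
  apply Finset.card_le_card_of_injOn (fun U => (Finset.univ.filter (fun x => (p, x) ∈ U),
    Finset.univ.filter (fun x => (q, x) ∈ U), fun i => st U i.1))
  · intro U _; simp
  · intro U hU W hW h
    rw [Finset.mem_coe, Finset.mem_filter, mem_connSets] at hU hW
    simp only [Prod.mk.injEq] at h
    obtain ⟨h1, h2, h3⟩ := h
    ext ⟨i, x⟩
    by_cases hip : i = p
    · subst hip
      have := Finset.ext_iff.1 h1 x
      simpa using this
    · by_cases hiq : i = q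
      · subst hiq
        have := Finset.ext_iff.1 h2 x
        simpa using this
      · by_cases hi : i ∈ Finset.Ioo p q
        · have c1 := cr_of_ext hU.1 hU.2 hi
          have c2 := cr_of_ext hW.1 hW.2 hi
          have h4 : st U i = st W i := congrFun h3 ⟨i, hi⟩
          unfold st at h4
          have hx : x = 0 ∨ x = 1 ∨ x = 2 ∨ x = 3 := by fin_cases x <;> simp
          rcases hx with rfl | rfl | rfl | rfl
          · exact ⟨fun _ => c2.1, fun _ => c1.1⟩
          · split_ifs at h4 with g1 g2 g3 g4 g5 g6 <;>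
              first
              | (exact absurd h4 (by decide))
              | (have k1 := c1.2.2; have k2 := c2.2.2; tauto)
          · split_ifs at h4 with g1 g2 g3 g4 g5 g6 <;>
              first
              | (exact absurd h4 (by decide))
              | (have k1 := c1.2.2; have k2 := c2.2.2; tauto)
          · exact ⟨fun _ => c2.2.1, fun _ => c1.2.1⟩
        · have key : ∀ X : Finset (Fin (m + 2) × Fin 4), Ext X p q → (i, x) ∉ X := by
            intro X hX hx
            have := hX.2.2 _ hx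
            apply hi
            rw [Finset.mem_Ioo]
            exact ⟨lt_of_le_of_ne this.1 (Ne.symm hip), lt_of_le_of_ne this.2 hiq⟩
          exact ⟨fun h => absurd h (key U hU.2), fun h => absurd h (key W hW.2)⟩

theorem mul_two_pow_le (t : ℕ) : t * 2 ^ t ≤ 3 ^ t := by
  induction t with
  | zero => simp
  | succ t ih =>
    rcases Nat.lt_or_ge t 2 with h | h
    · interval_cases t <;> norm_num
    · rw [pow_succ, pow_succ]
      have : (t + 1) * (2 ^ t * 2) = 2 * (t * 2 ^ t) + 2 * 2 ^ t := by ring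
      rw [this]
      have h2 : 2 * 2 ^ t ≤ t * 2 ^ t := Nat.mul_le_mul_right _ h
      omega

theorem term_le (p q : Fin (m + 2)) (hpq : p ≤ q) :
    ((m - (Finset.Ioo p q).card : ℕ) : ℝ) * (3 : ℝ) ^ (Finset.Ioo p q).card
      ≤ 2 * 3 ^ m * ((1 / 2 : ℝ) ^ (p : ℕ) * (1 / 2 : ℝ) ^ ((Fin.rev q : Fin (m + 2)) : ℕ)) := by
  rw [Fin.card_Ioo]
  set l : ℕ := (q : ℕ) - p - 1 with hl
  have hpq' : (p : ℕ) ≤ q := hpq
  have hq := q.2
  have hlm : l ≤ m := by omega
  set t := m - l with ht
  have h1 : (t : ℝ) * 2 ^ t ≤ 3 ^ t := by exact_mod_cast mul_two_pow_le t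
  have hrev : ((Fin.rev q : Fin (m + 2)) : ℕ) = m + 1 - q := by
    rw [Fin.val_rev]; omega
  rw [hrev, ← pow_add]
  have hml : m = l + t := by omega
  have h3 : (3 : ℝ) ^ m = 3 ^ l * 3 ^ t := by
    rw [← pow_add, ← hml]
  have hexp : (1 / 2 : ℝ) ^ (t + 1) ≤ (1 / 2 : ℝ) ^ ((p : ℕ) + (m + 1 - q)) := by
    apply pow_le_pow_of_le_one (by norm_num) (by norm_num)
    omega
  have h4 : (t : ℝ) ≤ 3 ^ t * (1 / 2) ^ t := by
    rw [one_div, inv_pow, ← div_eq_mul_inv, le_div_iff₀ (by positivity)]
    exact h1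
  calc (t : ℝ) * 3 ^ l ≤ (3 ^ t * (1 / 2) ^ t) * 3 ^ l := by
        apply mul_le_mul_of_nonneg_right h4 (by positivity)
    _ = 2 * 3 ^ m * (1 / 2) ^ (t + 1) := by rw [h3, pow_succ]; ring
    _ ≤ _ := by
        apply mul_le_mul_of_nonneg_left hexp (by positivity)

theorem sum_K_le (m : ℕ) :
    ∑ U ∈ connSets (chain m), (K U : ℝ) ≤ 2048 * ((connSets (chain m)).card : ℝ) := by
  have h1 : ∑ U ∈ connSets (chain m), (K U : ℝ) ≤
      ∑ p : Fin (m + 2), ∑ q : Fin (m + 2),
        ∑ U ∈ (connSets (chain m)).filter (fun U => Ext U p q), (K U : ℝ) := by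
    have e : ∀ p q : Fin (m + 2), ∑ U ∈ (connSets (chain m)).filter (fun U => Ext U p q),
        (K U : ℝ) = ∑ U ∈ connSets (chain m), if Ext U p q then (K U : ℝ) else 0 := by
      intro p q
      rw [Finset.sum_filter]
    simp_rw [e]
    rw [Finset.sum_congr rfl (fun p _ => Finset.sum_comm), Finset.sum_comm]
    refine Finset.sum_le_sum (fun U hU => ?_)
    obtain ⟨p, q, hpq⟩ := exists_ext (mem_connSets.1 hU).1
    refine le_trans ?_ (Finset.single_le_sum (f := fun p : Fin (m + 2) =>
      ∑ q : Fin (m + 2), if Ext U p q then (K U : ℝ) else 0) (fun p _ => ?_) (Finset.mem_univ p))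
    · refine le_trans ?_ (Finset.single_le_sum (f := fun q : Fin (m + 2) =>
        if Ext U p q then (K U : ℝ) else 0) (fun q _ => ?_) (Finset.mem_univ q))
      · simp [hpq]
      · split_ifs <;> positivity
    · refine Finset.sum_nonneg (fun q _ => ?_)
      split_ifs <;> positivity
  refine h1.trans ?_
  have h2 : ∀ p q : Fin (m + 2),
      ∑ U ∈ (connSets (chain m)).filter (fun U => Ext U p q), (K U : ℝ) ≤
      256 * (2 * 3 ^ m * ((1 / 2 : ℝ) ^ (p : ℕ) *
        (1 / 2 : ℝ) ^ ((Fin.rev q : Fin (m + 2)) : ℕ))) := by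
    intro p q
    by_cases hpq : p ≤ q
    · refine le_trans ?_ (mul_le_mul_of_nonneg_left (term_le p q hpq) (by norm_num))
      have hK : ∀ U ∈ (connSets (chain m)).filter (fun U => Ext U p q),
          (K U : ℝ) ≤ ((m - (Finset.Ioo p q).card : ℕ) : ℝ) := by
        intro U hU
        rw [Finset.mem_filter, mem_connSets] at hU
        have := K_le hU.1 hU.2
        exact_mod_cast (by omega : K U ≤ m - (Finset.Ioo p q).card)
      refine (Finset.sum_le_card_nsmul _ _ _ hK).trans ?_
      rw [nsmul_eq_mul]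
      have hc : (((connSets (chain m)).filter (fun U => Ext U p q)).card : ℝ) ≤
          256 * 3 ^ (Finset.Ioo p q).card := by exact_mod_cast count_ext p q
      calc _ ≤ (256 * 3 ^ (Finset.Ioo p q).card : ℝ) *
            ((m - (Finset.Ioo p q).card : ℕ) : ℝ) :=
            mul_le_mul_of_nonneg_right hc (by positivity)
        _ = _ := by ring
    · have : (connSets (chain m)).filter (fun U => Ext U p q) = ∅ := by
        rw [Finset.filter_eq_empty_iff]
        intro U _ h
        obtain ⟨⟨x, hx⟩, -, h3⟩ := h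
        exact hpq (h3 _ hx).2
      rw [this, Finset.sum_empty]
      positivity
  refine (Finset.sum_le_sum (fun p _ => Finset.sum_le_sum (fun q _ => h2 p q))).trans ?_
  have hgeo : ∑ p : Fin (m + 2), (1 / 2 : ℝ) ^ (p : ℕ) ≤ 2 := by
    rw [Fin.sum_univ_eq_sum_range (fun i => (1 / 2 : ℝ) ^ i)]
    exact sum_geometric_two_le _
  have hgeo2 : ∑ q : Fin (m + 2), (1 / 2 : ℝ) ^ ((Fin.rev q : Fin (m + 2)) : ℕ) ≤ 2 := by
    have : ∑ q : Fin (m + 2), (1 / 2 : ℝ) ^ ((Fin.rev q : Fin (m + 2)) : ℕ)
        = ∑ q : Fin (m + 2), (1 / 2 : ℝ) ^ (q : ℕ) :=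
      Fintype.sum_equiv Fin.revPerm _ _ (fun q => rfl)
    rw [this]; exact hgeo
  have hfac : ∑ p : Fin (m + 2), ∑ q : Fin (m + 2), 256 * (2 * 3 ^ m * ((1 / 2 : ℝ) ^ (p : ℕ) *
        (1 / 2 : ℝ) ^ ((Fin.rev q : Fin (m + 2)) : ℕ))) =
      512 * 3 ^ m * ((∑ p : Fin (m + 2), (1 / 2 : ℝ) ^ (p : ℕ)) *
        ∑ q : Fin (m + 2), (1 / 2 : ℝ) ^ ((Fin.rev q : Fin (m + 2)) : ℕ)) := by
    rw [Finset.sum_mul_sum, Finset.mul_sum]
    refine Finset.sum_congr rfl (fun p _ => ?_)
    rw [Finset.mul_sum]
    refine Finset.sum_congr rfl (fun q _ => ?_)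
    ring
  rw [hfac]
  have hN : (3 : ℝ) ^ m ≤ ((connSets (chain m)).card : ℝ) := by exact_mod_cast N_ge m
  have hprod : (∑ p : Fin (m + 2), (1 / 2 : ℝ) ^ (p : ℕ)) *
        ∑ q : Fin (m + 2), (1 / 2 : ℝ) ^ ((Fin.rev q : Fin (m + 2)) : ℕ) ≤ 2 * 2 :=
    mul_le_mul hgeo hgeo2 (Finset.sum_nonneg (fun _ _ => by positivity)) (by norm_num)
  calc 512 * 3 ^ m * ((∑ p : Fin (m + 2), (1 / 2 : ℝ) ^ (p : ℕ)) *
        ∑ q : Fin (m + 2), (1 / 2 : ℝ) ^ ((Fin.rev q : Fin (m + 2)) : ℕ))
      ≤ 512 * 3 ^ m * (2 * 2) := mul_le_mul_of_nonneg_left hprod (by positivity)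
    _ ≤ _ := by linarith

/-- number of connected sets missing a vertex -/
noncomputable def miss (m : ℕ) (v : Fin (m + 2) × Fin 4) : ℕ :=
  ((connSets (chain m)).filter (fun U => v ∉ U)).card

theorem sum_miss (m : ℕ) :
    ∑ U ∈ connSets (chain m), U.card + ∑ v, miss m v
      = 4 * (m + 2) * (connSets (chain m)).card := by
  have h : ∑ v, miss m v = ∑ U ∈ connSets (chain m), (Uᶜ).card := by
    unfold miss
    simp_rw [Finset.card_filter]
    rw [Finset.sum_comm]
    refine Finset.sum_congr rfl (fun U _ => ?_)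
    rw [← Finset.card_filter]
    congr 1
    ext; simp
  rw [h, ← Finset.sum_add_distrib, mul_comm, ← smul_eq_mul, ← Finset.sum_const]
  refine Finset.sum_congr rfl (fun U _ => ?_)
  rw [Finset.card_add_card_compl, Fintype.card_prod, Fintype.card_fin, Fintype.card_fin]
  ring

/-- number of connected sets not crossing the block `i` -/
noncomputable def nCr (m : ℕ) (i : Fin (m + 2)) : ℕ :=
  ((connSets (chain m)).filter (fun U => ¬ Cr U i)).card

theorem miss_mid {i : Fin (m + 2)} (hi : Mid m i) :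
    3 * (miss m (i, 0) + miss m (i, 1) + miss m (i, 2) + miss m (i, 3)) ≤
      2 * (connSets (chain m)).card + 12 * nCr m i := by
  set X := ((connSets (chain m)).filter (fun U => Cr U i ∧ (i, (1 : Fin 4)) ∉ U)).card with hX
  set Y := ((connSets (chain m)).filter (fun U => Cr U i ∧ (i, (2 : Fin 4)) ∉ U)).card with hY
  set Z := ((connSets (chain m)).filter (fun U => Cr U i ∧ (i, (1 : Fin 4)) ∈ U ∧
    (i, (2 : Fin 4)) ∈ U)).card with hZ
  have h0 : miss m (i, 0) ≤ nCr m i := by
    apply Finset.card_le_card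
    intro U hU
    rw [Finset.mem_filter] at hU ⊢
    exact ⟨hU.1, fun h => hU.2 h.1⟩
  have h3 : miss m (i, 3) ≤ nCr m i := by
    apply Finset.card_le_card
    intro U hU
    rw [Finset.mem_filter] at hU ⊢
    exact ⟨hU.1, fun h => hU.2 h.2.1⟩
  have h1 : miss m (i, 1) ≤ X + nCr m i := by
    refine le_trans (Finset.card_le_card ?_) (Finset.card_union_le _ _)
    intro U hU
    rw [Finset.mem_filter] at hU
    rw [Finset.mem_union, Finset.mem_filter, Finset.mem_filter]
    by_cases h : Cr U i
    · exact Or.inl ⟨hU.1, h, hU.2⟩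
    · exact Or.inr ⟨hU.1, h⟩
  have h2 : miss m (i, 2) ≤ Y + nCr m i := by
    refine le_trans (Finset.card_le_card ?_) (Finset.card_union_le _ _)
    intro U hU
    rw [Finset.mem_filter] at hU
    rw [Finset.mem_union, Finset.mem_filter, Finset.mem_filter]
    by_cases h : Cr U i
    · exact Or.inl ⟨hU.1, h, hU.2⟩
    · exact Or.inr ⟨hU.1, h⟩
  have hXZ : X ≤ Z := by
    apply Finset.card_le_card_of_injOn (fun U => insert (i, (1 : Fin 4)) U)
    · intro U hU
      rw [Finset.mem_coe, Finset.mem_filter, mem_connSets] at hU ⊢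
      obtain ⟨hc, hcr, h1⟩ := hU
      refine ⟨hc.insert_adj hcr.1 (chain_adj_block (by decide) (by simp)), ⟨?_, ?_, ?_⟩, ?_, ?_⟩
      · exact Finset.mem_insert_of_mem hcr.1
      · exact Finset.mem_insert_of_mem hcr.2.1
      · exact Or.inl (Finset.mem_insert_self _ _)
      · exact Finset.mem_insert_self _ _
      · refine Finset.mem_insert_of_mem ?_
        rcases hcr.2.2 with h | h
        · exact absurd h h1
        · exact h
    · intro U hU W hW h
      rw [Finset.mem_coe, Finset.mem_filter] at hU hW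
      have := congrArg (fun X => Finset.erase X (i, (1 : Fin 4))) h
      simp only [Finset.erase_insert hU.2.2, Finset.erase_insert hW.2.2] at this
      exact this
  have hYZ : Y ≤ Z := by
    apply Finset.card_le_card_of_injOn (fun U => insert (i, (2 : Fin 4)) U)
    · intro U hU
      rw [Finset.mem_coe, Finset.mem_filter, mem_connSets] at hU ⊢
      obtain ⟨hc, hcr, h1⟩ := hU
      refine ⟨hc.insert_adj hcr.1 (chain_adj_block (by decide) (by simp)), ⟨?_, ?_, ?_⟩, ?_, ?_⟩
      · exact Finset.mem_insert_of_mem hcr.1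
      · exact Finset.mem_insert_of_mem hcr.2.1
      · exact Or.inr (Finset.mem_insert_self _ _)
      · refine Finset.mem_insert_of_mem ?_
        rcases hcr.2.2 with h | h
        · exact h
        · exact absurd h h1
      · exact Finset.mem_insert_self _ _
    · intro U hU W hW h
      rw [Finset.mem_coe, Finset.mem_filter] at hU hW
      have := congrArg (fun X => Finset.erase X (i, (2 : Fin 4))) h
      simp only [Finset.erase_insert hU.2.2, Finset.erase_insert hW.2.2] at this
      exact this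
  have hsum : X + Y + Z ≤ (connSets (chain m)).card := by
    rw [hX, hY, hZ, ← Finset.card_union_of_disjoint, ← Finset.card_union_of_disjoint]
    · apply Finset.card_le_card
      intro U hU
      simp only [Finset.mem_union, Finset.mem_filter] at hU
      rcases hU with (hU | hU) | hU <;> exact hU.1
    · rw [Finset.disjoint_left]
      intro U hU hU'
      simp only [Finset.mem_union, Finset.mem_filter] at hU hU'
      rcases hU with hU | hU
      · exact hU.2.2 hU'.2.2.1
      · exact hU.2.2 hU'.2.2.2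
    · rw [Finset.disjoint_left]
      intro U hU hU'
      simp only [Finset.mem_filter] at hU hU'
      rcases hU.2.1.2.2 with h | h
      · exact hU.2.2 h
      · exact hU'.2.2 h
  omega

theorem miss_le (v : Fin (m + 2) × Fin 4) : miss m v ≤ (connSets (chain m)).card :=
  Finset.card_filter_le _ _

theorem sum_nCr (m : ℕ) :
    ∑ i ∈ Finset.univ.filter (fun i => Mid m i), nCr m i = ∑ U ∈ connSets (chain m), K U := by
  unfold nCr K
  simp_rw [Finset.card_filter]
  rw [Finset.sum_comm]
  refine Finset.sum_congr rfl (fun U _ => ?_)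
  rw [Finset.sum_filter]
  refine Finset.sum_congr rfl (fun i _ => ?_)
  by_cases h : Mid m i <;> simp [h]

theorem sum_miss_le (m : ℕ) :
    3 * ∑ v, miss m v ≤ 2 * m * (connSets (chain m)).card
      + 12 * ∑ U ∈ connSets (chain m), K U + 24 * (connSets (chain m)).card := by
  have hm := card_mid m
  rw [Fintype.card_subtype] at hm
  have hm' : (Finset.univ.filter (fun i => ¬ Mid m i)).card = 2 := by
    have h := Finset.card_filter_add_card_filter_not (s := (Finset.univ : Finset (Fin (m + 2))))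
      (fun i => Mid m i)
    rw [Finset.card_univ, Fintype.card_fin] at h
    omega
  have e : ∑ v, miss m v = ∑ i : Fin (m + 2),
      (miss m (i, 0) + miss m (i, 1) + miss m (i, 2) + miss m (i, 3)) := by
    rw [Fintype.sum_prod_type]
    refine Finset.sum_congr rfl (fun i _ => ?_)
    rw [Fin.sum_univ_four]
  rw [e, ← Finset.sum_filter_add_sum_filter_not Finset.univ (fun i => Mid m i), mul_add,
    Finset.mul_sum, Finset.mul_sum, ← sum_nCr]
  have h1 : ∑ i ∈ Finset.univ.filter (fun i => Mid m i),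
      3 * (miss m (i, 0) + miss m (i, 1) + miss m (i, 2) + miss m (i, 3)) ≤
      2 * m * (connSets (chain m)).card
        + 12 * ∑ i ∈ Finset.univ.filter (fun i => Mid m i), nCr m i := by
    refine (Finset.sum_le_sum (fun i hi => miss_mid (Finset.mem_filter.1 hi).2)).trans ?_
    rw [Finset.sum_add_distrib, Finset.sum_const, smul_eq_mul, ← Finset.mul_sum]
    apply le_of_eq
    congr 1
    calc _ = m * (2 * (connSets (chain m)).card) := by congr 1
      _ = _ := by ring
  have h2 : ∑ i ∈ Finset.univ.filter (fun i => ¬ Mid m i),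
      3 * (miss m (i, 0) + miss m (i, 1) + miss m (i, 2) + miss m (i, 3)) ≤
      24 * (connSets (chain m)).card := by
    have : ∀ i ∈ Finset.univ.filter (fun i => ¬ Mid m i),
        3 * (miss m (i, 0) + miss m (i, 1) + miss m (i, 2) + miss m (i, 3)) ≤
        12 * (connSets (chain m)).card := by
      intro i _
      have a0 := miss_le (m := m) (i, 0)
      have a1 := miss_le (m := m) (i, 1)
      have a2 := miss_le (m := m) (i, 2)
      have a3 := miss_le (m := m) (i, 3)
      omega
    refine (Finset.sum_le_card_nsmul _ _ _ this).trans ?_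
    rw [hm', smul_eq_mul]
    omega
  omega

theorem density_chain_ge (m : ℕ) :
    5 / 6 - 2050 / ((m : ℝ) + 2) ≤ density (chain m) := by
  have h1 : (∑ U ∈ connSets (chain m), (U.card : ℝ)) + ∑ v, (miss m v : ℝ)
      = 4 * ((m : ℝ) + 2) * ((connSets (chain m)).card : ℝ) := by
    exact_mod_cast sum_miss m
  have h2 : 3 * ∑ v, (miss m v : ℝ) ≤ 2 * (m : ℝ) * ((connSets (chain m)).card : ℝ)
      + 12 * ∑ U ∈ connSets (chain m), (K U : ℝ) + 24 * ((connSets (chain m)).card : ℝ) := by
    exact_mod_cast sum_miss_le m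
  have h3 := sum_K_le m
  have hN : (0 : ℝ) < ((connSets (chain m)).card : ℝ) := by
    have := N_ge m
    have h4 : 0 < (connSets (chain m)).card := lt_of_lt_of_le (by positivity) this
    exact_mod_cast h4
  have hm : (0 : ℝ) < (m : ℝ) + 2 := by positivity
  have hcard : ((Fintype.card (Fin (m + 2) × Fin 4) : ℕ) : ℝ) = 4 * ((m : ℝ) + 2) := by
    rw [Fintype.card_prod, Fintype.card_fin, Fintype.card_fin]
    push_cast
    ring
  unfold density
  rw [hcard, div_div, le_div_iff₀ (by positivity)]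
  have e : (5 / 6 - 2050 / ((m : ℝ) + 2)) * (((connSets (chain m)).card : ℝ) * (4 * ((m : ℝ) + 2)))
      = (10 / 3 * ((m : ℝ) + 2) - 8200) * ((connSets (chain m)).card : ℝ) := by
    field_simp
    ring
  rw [e]
  nlinarith

end Pool.Agent.MP_345bc6_co
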