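import Mathlib
import Pool.Agent.Lib.MP_345bc6_co.Sharp

set_option autoImplicit false

namespace Pool.Agent.MP_345bc6_co

open scoped Classical

theorem dg_eq {V : Type} [Fintype V] (G : SimpleGraph V) (v : V) :
    dg G Finset.univ v = G.degree v := by
  unfold dg
  rw [← SimpleGraph.card_neighborFinset_eq_degree]
  congr 1
  ext w
  simp

theorem n2_eq {V : Type} [Fintype V] (G : SimpleGraph V) :
    n2 G = (Finset.univ.filter (fun v => G.degree v = 2)).card := by
  unfold n2
  simp_rw [dg_eq]

theorem general {V : Type} [Fintype V] (G : SimpleGraph V) (hG : G.Connected)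
    (hc : 2 ≤ Fintype.card V) :
    density G < 5 / 6 + ((Finset.univ.filter (fun v => G.degree v = 2)).card : ℝ)
      / (6 * (Fintype.card V : ℝ)) := by
  have : Nontrivial V := Fintype.one_lt_card_iff_nontrivial.1 (by omega)
  have : Nonempty V := hG.nonempty
  rw [← n2_eq]
  apply density_lt
  intro v
  rw [dg_eq]
  exact hG.preconnected.degree_pos_of_nontrivial v

theorem no_two {V : Type} [Fintype V] (G : SimpleGraph V) (hG : G.Connected)
    (hc : 2 ≤ Fintype.card V) (h2 : ∀ v, G.degree v ≠ 2) : density G < 5 / 6 := by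
  have h := general G hG hc
  rw [Finset.filter_false_of_mem (fun v _ => h2 v)] at h
  simpa using h

theorem three {V : Type} [Fintype V] (G : SimpleGraph V) (hG : G.Connected)
    (h3 : ∀ v, 3 ≤ G.degree v) : density G < 5 / 6 := by
  refine no_two G hG ?_ (fun v h => by have := h3 v; omega)
  obtain ⟨v⟩ := hG.nonempty
  have h1 := h3 v
  have h2 := G.degree_lt_card_verts v
  omega

end Pool.Agent.MP_345bc6_co
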